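import Pool.Agent.SYS.SP.Defs

/-!
# SYS-SP-Dec: limits in the notation of `Par`; the planar numbers decay at `λ(θ)`
-/

namespace SYS.SP

open SYS.RB Filter Topology Finset Real

theorem chi_pos {x : ℝ} (hx : 0 < x) : 0 < chi x := by
  have h1 := Real.sinh_pos_iff.mpr hx
  have h2 := Real.cosh_pos x
  unfold chi
  positivity

theorem rat_tt' {θ x : ℝ} (h : Num.Par θ x) :
    Tendsto rho (Fth θ) (𝓝 (Num.yy x)) ∧ Tendsto kap (Fth θ) (𝓝 (chi x)) := by
  obtain ⟨y, hy, e, h1, h2⟩ := rat_tt gj toda h.1 h.2.1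
  have : x = y := V_inj h.2.2.1 hy h.2.2.2 e
  subst this
  rw [yy_eq]
  exact ⟨h1, h2⟩

theorem sum_at {θ x : ℝ} (h : Num.Par θ x) : Summable (fun i => tt i 0 * Num.yy x ^ i) := by
  haveI := Fth_neBot h.1.le
  have hU : Adm θ (Ultrafilter.of (Fth θ)) := Ultrafilter.of_le (Fth θ)
  refine (gjl gj h.1 h.2.1 hU (r := Num.yy x) (q := chi x) ?_ ?_).1
  · intro a
    exact (rat_tt' h).1.mono_left (Adm_SH h.1 hU _ _)
  · exact (rat_tt' h).2.mono_left (Adm_SH h.1 hU _ _)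

private theorem dec_rr_pos (x : ℝ) : 0 < Num.rr x := by
  unfold Num.rr
  positivity

private theorem dec_rr_sq (x : ℝ) : Num.rr x ^ 2 = cosh x ^ 2 + 2 := by
  unfold Num.rr
  exact Real.sq_sqrt (by positivity)

theorem yy_strict {x y : ℝ} (hx : 0 ≤ x) (hxy : x < y) : Num.yy y < Num.yy x := by
  have hr1 := dec_rr_pos x
  have hr2 := dec_rr_pos y
  have hc1 := Real.one_le_cosh x
  have hc3 : cosh x < cosh y := by
    rw [Real.cosh_lt_cosh, abs_of_nonneg hx, abs_of_nonneg (hx.trans hxy.le)]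
    exact hxy
  have hc2 : 1 ≤ cosh y := hc1.trans hc3.le
  unfold Num.yy
  rw [div_lt_div_iff₀ (by positivity) (by positivity)]
  have key : cosh y * Num.rr x ^ 3 < cosh x * Num.rr y ^ 3 := by
    rw [← pow_lt_pow_iff_left₀ (by positivity) (by positivity) (two_ne_zero)]
    have e1 : (cosh y * Num.rr x ^ 3) ^ 2 = cosh y ^ 2 * (cosh x ^ 2 + 2) ^ 3 := by
      rw [← dec_rr_sq]
      ring
    have e2 : (cosh x * Num.rr y ^ 3) ^ 2 = cosh x ^ 2 * (cosh y ^ 2 + 2) ^ 3 := by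
      rw [← dec_rr_sq]
      ring
    rw [e1, e2]
    have ha : 1 ≤ cosh x ^ 2 := one_le_pow₀ hc1
    have hb : 1 ≤ cosh y ^ 2 := one_le_pow₀ hc2
    have hab : cosh x ^ 2 < cosh y ^ 2 := pow_lt_pow_left₀ hc3 (by linarith) two_ne_zero
    generalize cosh x ^ 2 = a at *
    generalize cosh y ^ 2 = b at *
    have h1 : 1 < a * b := by nlinarith
    have h2 : 0 < a * b * (a + b) + 6 * (a * b) - 8 := by nlinarith
    have h3 : 0 < (b - a) * (a * b * (a + b) + 6 * (a * b) - 8) := mul_pos (by linarith) h2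
    have h4 : a * (b + 2) ^ 3 - b * (a + 2) ^ 3 = (b - a) * (a * b * (a + b) + 6 * (a * b) - 8) := by ring
    linarith
  calc cosh y * (4 * Num.rr x ^ 3) = 4 * (cosh y * Num.rr x ^ 3) := by ring
    _ < 4 * (cosh x * Num.rr y ^ 3) := by linarith
    _ = cosh x * (4 * Num.rr y ^ 3) := by ring

theorem dec {θ x : ℝ} (h : Num.Par θ x) :
    ∃ c : ℝ, 0 < c ∧ ∃ C : ℝ, 0 < C ∧ ∀ i : ℕ, tt i 0 * Num.yy x ^ i ≤ C * exp (-c * i) := by
  have hθ := h.1
  have hθ' := h.2.1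
  obtain ⟨x', hx'⟩ := exists_par (θ := θ / 2) (by linarith) (by linarith)
  have h1 : x' ≤ x := par_mono hx' h (by linarith)
  have h2 : x' ≠ x := by
    rintro rfl
    have e1 := h.2.2.2
    have e2 := hx'.2.2.2
    have h3 := Real.sinh_pos_iff.mpr h.2.2.1
    have h4 : 0 < sinh x' * (cosh x' ^ 2 + 2) := by positivity
    nlinarith
  have h3 : Num.yy x < Num.yy x' := yy_strict hx'.2.2.1.le (lt_of_le_of_ne h1 h2)
  have hy := yy_pos x
  have hy' := yy_pos x'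
  have hs := sum_at hx'
  obtain ⟨M, hM⟩ : ∃ M : ℝ, ∀ i : ℕ, tt i 0 * Num.yy x' ^ i ≤ M := by
    refine ⟨∑' i, tt i 0 * Num.yy x' ^ i, fun i => ?_⟩
    exact hs.le_tsum i fun j _ => mul_nonneg (tt_nn j 0) (pow_nonneg hy'.le j)
  have hr : 1 < Num.yy x' / Num.yy x := by
    rw [lt_div_iff₀ hy]
    linarith
  refine ⟨Real.log (Num.yy x' / Num.yy x), Real.log_pos hr, |M| + 1, by positivity, fun i => ?_⟩
  have e1 : exp (-Real.log (Num.yy x' / Num.yy x) * i) = (Num.yy x / Num.yy x') ^ i := by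
    rw [← Real.log_inv, inv_div, mul_comm, Real.exp_nat_mul, Real.exp_log (by positivity)]
  have e2 : tt i 0 * Num.yy x ^ i = tt i 0 * Num.yy x' ^ i * (Num.yy x / Num.yy x') ^ i := by
    rw [mul_assoc, ← mul_pow, mul_div_cancel₀ _ hy'.ne']
  rw [e1, e2]
  refine mul_le_mul_of_nonneg_right ?_ (by positivity)
  have := le_abs_self M
  linarith [hM i]

end SYS.SP
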