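import Pool.Agent.SYS.SP.Bb

/-!
# SYS-SP-Sm: the sum over products with a small genus on one side

From `bb`: geometric decay in the small genus when `i` is small against `n`, exponential decay otherwise.
-/

namespace SYS.SP

open SYS.RB Filter Topology Finset Real

private theorem sm_geo (m N : ℕ) :
    ∑ a ∈ range N, (if m ≤ a then (1 / 2 : ℝ) ^ (a - m) else 0) ≤
      2 - 2 * (1 / 2 : ℝ) ^ (N - m) := by
  induction N with
  | zero => simp
  | succ N ih =>
    rw [Finset.sum_range_succ]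
    by_cases h : m ≤ N
    · rw [if_pos h, show N + 1 - m = (N - m) + 1 by omega, pow_succ]
      linarith
    · rw [if_neg h, show N + 1 - m = 0 by omega]
      rw [show N - m = 0 by omega] at ih
      linarith

private theorem sm_term {C1 c0 δ1 δ' : ℝ} (hC1 : 1 ≤ C1) (hc0 : 0 < c0) (hδ1 : δ1 = 1 / (2 * C1))
    (hδ' : δ' * log C1 ≤ c0 * δ1 / 4) {m n i a : ℕ} (hn : 1 ≤ n) (hi : i ≤ n) (ha : m ≤ a)
    (ha' : (a : ℝ) ≤ δ' * n) :
    exp (c0 / 8 * i) * ((C1 * ((i : ℝ) / n) ^ 2) ^ a * exp (-c0 * i)) ≤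
      C1 ^ m * ((n : ℝ) ^ (2 * m))⁻¹ * ((i : ℝ) ^ (2 * m) * exp (-(7 / 8 * c0) * i)) *
        (1 / 2) ^ (a - m) + exp (-(5 / 8 * c0 * δ1) * n) := by
  have hn0 : (0 : ℝ) < n := by exact_mod_cast hn
  have hC0 : 0 < C1 := by linarith
  have hδ1p : 0 < δ1 := by
    rw [hδ1]
    positivity
  have hlog : 0 ≤ log C1 := Real.log_nonneg hC1
  set t : ℝ := C1 * ((i : ℝ) / n) ^ 2 with ht
  have ht0 : 0 ≤ t := by positivity
  have e1 : exp (c0 / 8 * i) * (t ^ a * exp (-c0 * i)) = t ^ a * exp (-(7 / 8 * c0) * i) := by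
    have : exp (-(7 / 8 * c0) * i) = exp (c0 / 8 * i) * exp (-c0 * i) := by
      rw [← Real.exp_add]
      congr 1
      ring
    rw [this]
    ring
  rw [e1]
  by_cases h : (i : ℝ) ≤ δ1 * n
  · have h1 : (i : ℝ) / n ≤ δ1 := by
      rw [div_le_iff₀ hn0]
      exact h
    have h2 : t ≤ 1 / 2 := by
      have h3 : ((i : ℝ) / n) ^ 2 ≤ δ1 ^ 2 := pow_le_pow_left₀ (by positivity) h1 2
      have h4 : C1 * δ1 ^ 2 ≤ 1 / 2 := by
        rw [hδ1]
        rw [div_pow, one_pow, mul_one_div, div_le_div_iff₀ (by positivity) (by norm_num)]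
        nlinarith
      calc t ≤ C1 * δ1 ^ 2 := mul_le_mul_of_nonneg_left h3 hC0.le
        _ ≤ 1 / 2 := h4
    have h5 : t ^ a ≤ t ^ m * (1 / 2) ^ (a - m) := by
      have : t ^ a = t ^ m * t ^ (a - m) := by
        rw [← pow_add]
        congr 1
        omega
      rw [this]
      exact mul_le_mul_of_nonneg_left (pow_le_pow_left₀ ht0 h2 _) (by positivity)
    have h6 : t ^ m = C1 ^ m * ((n : ℝ) ^ (2 * m))⁻¹ * (i : ℝ) ^ (2 * m) := by
      rw [ht, mul_pow, ← pow_mul, div_pow]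
      ring
    calc t ^ a * exp (-(7 / 8 * c0) * i) ≤
          t ^ m * (1 / 2) ^ (a - m) * exp (-(7 / 8 * c0) * i) :=
          mul_le_mul_of_nonneg_right h5 (by positivity)
      _ = C1 ^ m * ((n : ℝ) ^ (2 * m))⁻¹ * ((i : ℝ) ^ (2 * m) * exp (-(7 / 8 * c0) * i)) *
        (1 / 2) ^ (a - m) := by
          rw [h6]
          ring
      _ ≤ _ := le_add_of_nonneg_right (Real.exp_pos _).le
  · have h' : δ1 * n ≤ i := (not_le.1 h).le
    have h1 : t ≤ C1 := by
      have h2 : (i : ℝ) / n ≤ 1 := by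
        rw [div_le_one hn0]
        exact_mod_cast hi
      have h3 : ((i : ℝ) / n) ^ 2 ≤ 1 := pow_le_one₀ (by positivity) h2
      calc t ≤ C1 * 1 := mul_le_mul_of_nonneg_left h3 hC0.le
        _ = C1 := mul_one _
    have h2 : t ^ a ≤ exp (c0 * δ1 / 4 * n) := by
      calc t ^ a ≤ C1 ^ a := pow_le_pow_left₀ ht0 h1 a
        _ = exp (a * log C1) := by
            rw [mul_comm, Real.exp_mul, Real.exp_log hC0, Real.rpow_natCast]
        _ ≤ exp (c0 * δ1 / 4 * n) := by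
            rw [Real.exp_le_exp]
            calc (a : ℝ) * log C1 ≤ δ' * n * log C1 := mul_le_mul_of_nonneg_right ha' hlog
              _ = δ' * log C1 * n := by ring
              _ ≤ c0 * δ1 / 4 * n := mul_le_mul_of_nonneg_right hδ' hn0.le
    have h3 : exp (-(7 / 8 * c0) * i) ≤ exp (-(7 / 8 * c0) * (δ1 * n)) := by
      rw [Real.exp_le_exp]
      nlinarith
    calc t ^ a * exp (-(7 / 8 * c0) * i) ≤
          exp (c0 * δ1 / 4 * n) * exp (-(7 / 8 * c0) * (δ1 * n)) :=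
          mul_le_mul h2 h3 (Real.exp_pos _).le (Real.exp_pos _).le
      _ = exp (-(5 / 8 * c0 * δ1) * n) := by
          rw [← Real.exp_add]
          congr 1
          ring
      _ ≤ _ := le_add_of_nonneg_left (by positivity)

theorem sm {θ x : ℝ} (h : Num.Par θ x) :
    ∃ c δ' : ℝ, 0 < c ∧ 0 < δ' ∧ ∀ m : ℕ, ∃ C : ℝ, 0 < C ∧ ∀ᶠ p in Fth θ,
      (p.1 : ℝ) ^ (2 * m) * ∑ i ∈ range (p.1 + 1), ∑ a ∈ range (p.2 + 1),
        (if m ≤ a ∧ (a : ℝ) ≤ δ' * p.1 then
          exp (c * i) * (tt i a * tt (p.1 - i) (p.2 - a)) else 0) ≤ C * tt p.1 p.2 := by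
  obtain ⟨c0, C1, δ0, K, hc0, hC1, hδ0, hK, hbb⟩ := bb h
  have hC0 : 0 < C1 := by linarith
  have hlog : 0 ≤ log C1 := Real.log_nonneg hC1
  set δ1 : ℝ := 1 / (2 * C1) with hδ1
  have hδ1p : 0 < δ1 := by positivity
  set δ' : ℝ := min δ0 (c0 * δ1 / (4 * (1 + log C1))) with hδ'
  have hδ'p : 0 < δ' := lt_min hδ0 (by positivity)
  have hδ'l : δ' * log C1 ≤ c0 * δ1 / 4 := by
    have h1 : δ' ≤ c0 * δ1 / (4 * (1 + log C1)) := min_le_right _ _
    calc δ' * log C1 ≤ c0 * δ1 / (4 * (1 + log C1)) * log C1 :=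
          mul_le_mul_of_nonneg_right h1 hlog
      _ ≤ c0 * δ1 / (4 * (1 + log C1)) * (1 + log C1) :=
          mul_le_mul_of_nonneg_left (by linarith) (by positivity)
      _ = c0 * δ1 / 4 := by
          field_simp
  refine ⟨c0 / 8, δ', by positivity, hδ'p, fun m => ?_⟩
  have hsum : Summable (fun n : ℕ => (n : ℝ) ^ (2 * m) * exp (-(7 / 8 * c0) * n)) :=
    Real.summable_pow_mul_exp_neg_nat_mul (2 * m) (by positivity)
  set S : ℝ := ∑' n : ℕ, (n : ℝ) ^ (2 * m) * exp (-(7 / 8 * c0) * n) with hS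
  have hS0 : 0 ≤ S := tsum_nonneg (fun n => by positivity)
  have hlim : ∀ᶠ p in Fth θ,
      (p.1 : ℝ) ^ (2 * m + 2) * exp (-(5 / 8 * c0 * δ1) * p.1) < 1 / 4 := by
    have h1 : Tendsto (fun n : ℕ => (n : ℝ) ^ (2 * m + 2) * exp (-(5 / 8 * c0 * δ1) * n)) atTop
        (𝓝 0) := (Real.summable_pow_mul_exp_neg_nat_mul (2 * m + 2) (by positivity)).tendsto_atTop_zero
    exact (h1.comp (fst_nat_atTop θ)).eventually_lt_const (by norm_num)
  obtain ⟨δ2, hδ2, -, hgap⟩ := gap h.2.1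
  refine ⟨K * (2 * C1 ^ m * S + 1), by positivity, ?_⟩
  filter_upwards [hbb, hgap, ge_ev θ 1, hlim] with p h1 h2 h3 h4
  obtain ⟨n, g⟩ := p
  simp only at h1 h2 h3 h4 ⊢
  have hn1 : (1 : ℝ) ≤ n := by exact_mod_cast h3
  have hn0 : (0 : ℝ) < n := by linarith
  have hgn : (g : ℝ) ≤ n := by
    have : (0 : ℝ) ≤ g := Nat.cast_nonneg g
    nlinarith
  have hT : 0 ≤ tt n g := tt_nn n g
  set X : ℝ := exp (-(5 / 8 * c0 * δ1) * n) with hX
  have hX0 : 0 < X := Real.exp_pos _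
  set A : ℕ → ℝ := fun i => C1 ^ m * ((n : ℝ) ^ (2 * m))⁻¹ *
    ((i : ℝ) ^ (2 * m) * exp (-(7 / 8 * c0) * i)) with hA
  set G : ℕ → ℝ := fun a => if m ≤ a then (1 / 2 : ℝ) ^ (a - m) else 0 with hG
  have hA0 : ∀ i, 0 ≤ A i := fun i => by positivity
  have hterm : ∀ i ∈ range (n + 1), ∀ a ∈ range (g + 1),
      (if m ≤ a ∧ (a : ℝ) ≤ δ' * n then
        exp (c0 / 8 * i) * (tt i a * tt (n - i) (g - a)) else 0) ≤
        K * tt n g * (A i * G a + X) := by
    intro i hi a ha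
    have hi' : i ≤ n := by
      rw [mem_range] at hi
      omega
    have ha' : a ≤ g := by
      rw [mem_range] at ha
      omega
    by_cases hc : m ≤ a ∧ (a : ℝ) ≤ δ' * n
    · rw [if_pos hc]
      have b1 := h1 i a hi' ha' (hc.2.trans (mul_le_mul_of_nonneg_right (min_le_left _ _) hn0.le))
      have b2 := sm_term hC1 hc0 hδ1 hδ'l h3 hi' hc.1 hc.2
      have hGa : G a = (1 / 2 : ℝ) ^ (a - m) := if_pos hc.1
      calc exp (c0 / 8 * i) * (tt i a * tt (n - i) (g - a)) ≤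
            exp (c0 / 8 * i) * (K * ((C1 * ((i : ℝ) / n) ^ 2) ^ a * exp (-c0 * i)) * tt n g) :=
            mul_le_mul_of_nonneg_left b1 (Real.exp_pos _).le
        _ = K * tt n g * (exp (c0 / 8 * i) *
            ((C1 * ((i : ℝ) / n) ^ 2) ^ a * exp (-c0 * i))) := by ring
        _ ≤ K * tt n g * (A i * G a + X) := by
            rw [hGa]
            exact mul_le_mul_of_nonneg_left b2 (by positivity)
    · rw [if_neg hc]
      have : 0 ≤ G a := by
        simp only [hG]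
        split_ifs
        · positivity
        · exact le_rfl
      have := hA0 i
      positivity
  have hG2 : ∑ a ∈ range (g + 1), G a ≤ 2 := by
    have q1 := sm_geo m (g + 1)
    have q2 : (0 : ℝ) ≤ (1 / 2 : ℝ) ^ (g + 1 - m) := by positivity
    linarith
  have hAs : (n : ℝ) ^ (2 * m) * ∑ i ∈ range (n + 1), A i ≤ C1 ^ m * S := by
    have q1 : (n : ℝ) ^ (2 * m) * ∑ i ∈ range (n + 1), A i =
        C1 ^ m * ∑ i ∈ range (n + 1), (i : ℝ) ^ (2 * m) * exp (-(7 / 8 * c0) * i) := by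
      simp only [hA]
      rw [← Finset.mul_sum]
      field_simp
    rw [q1]
    refine mul_le_mul_of_nonneg_left ?_ (by positivity)
    exact hsum.sum_le_tsum _ (fun i _ => by positivity)
  have hXs : (n : ℝ) ^ (2 * m) * (((n : ℝ) + 1) * ((g : ℝ) + 1) * X) ≤ 1 := by
    have q1 : ((n : ℝ) + 1) * ((g : ℝ) + 1) ≤ 4 * (n : ℝ) ^ 2 := by
      have : (0 : ℝ) ≤ g := Nat.cast_nonneg g
      nlinarith
    calc (n : ℝ) ^ (2 * m) * (((n : ℝ) + 1) * ((g : ℝ) + 1) * X) ≤
          (n : ℝ) ^ (2 * m) * (4 * (n : ℝ) ^ 2 * X) := by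
          refine mul_le_mul_of_nonneg_left ?_ (by positivity)
          exact mul_le_mul_of_nonneg_right q1 hX0.le
      _ = 4 * ((n : ℝ) ^ (2 * m + 2) * X) := by ring
      _ ≤ 4 * (1 / 4) := mul_le_mul_of_nonneg_left h4.le (by norm_num)
      _ = 1 := by norm_num
  calc (n : ℝ) ^ (2 * m) * ∑ i ∈ range (n + 1), ∑ a ∈ range (g + 1),
        (if m ≤ a ∧ (a : ℝ) ≤ δ' * n then
          exp (c0 / 8 * i) * (tt i a * tt (n - i) (g - a)) else 0)
      ≤ (n : ℝ) ^ (2 * m) * ∑ i ∈ range (n + 1), ∑ a ∈ range (g + 1),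
          K * tt n g * (A i * G a + X) := by
        refine mul_le_mul_of_nonneg_left ?_ (by positivity)
        exact Finset.sum_le_sum (fun i hi => Finset.sum_le_sum (fun a ha => hterm i hi a ha))
    _ = K * tt n g * (((n : ℝ) ^ (2 * m) * ∑ i ∈ range (n + 1), A i) * ∑ a ∈ range (g + 1), G a +
          (n : ℝ) ^ (2 * m) * (((n : ℝ) + 1) * ((g : ℝ) + 1) * X)) := by
        have q1 : ∀ i ∈ range (n + 1), ∑ a ∈ range (g + 1), K * tt n g * (A i * G a + X) =
            K * tt n g * (A i * ∑ a ∈ range (g + 1), G a + ((g : ℝ) + 1) * X) := by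
          intro i _
          rw [← Finset.mul_sum, Finset.sum_add_distrib, ← Finset.mul_sum, Finset.sum_const,
            card_range, nsmul_eq_mul]
          push_cast
          ring
        rw [Finset.sum_congr rfl q1, ← Finset.mul_sum, Finset.sum_add_distrib, ← Finset.sum_mul,
          Finset.sum_const, card_range, nsmul_eq_mul]
        push_cast
        ring
    _ ≤ K * tt n g * (C1 ^ m * S * 2 + 1) := by
        refine mul_le_mul_of_nonneg_left ?_ (by positivity)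
        refine add_le_add ?_ hXs
        refine mul_le_mul hAs hG2 ?_ (by positivity)
        refine Finset.sum_nonneg (fun a _ => ?_)
        simp only [hG]
        split_ifs
        · positivity
        · exact le_rfl
    _ = K * (2 * C1 ^ m * S + 1) * tt n g := by ring

end SYS.SP
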