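import Pool.Agent.SYS.SP.Cc
import Pool.Agent.SYS.SP.Sm

/-!
# SYS-SP-Fin: THEOREM SEPB

The terms with a small genus on one side are bounded by `sm` (on the other side by reflection), the others by `cc_big`.
-/

namespace SYS.SP

open SYS.RB Filter Topology Finset Real

/-- polynomial factors against the exponential -/
private theorem fin_exp (θ : ℝ) {b : ℝ} (hb : 0 < b) (m : ℕ) : ∀ᶠ p in Fth θ,
    (p.1 : ℝ) ^ (2 * m) * ((p.1 : ℝ) + 1) ^ 2 * exp (-b * p.1) ≤ 1 := by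
  have h1 : Tendsto (fun p : ℕ × ℕ => b * (p.1 : ℝ)) (Fth θ) atTop :=
    (fst_atTop θ).const_mul_atTop hb
  have h2 := ((Real.tendsto_pow_mul_exp_neg_atTop_nhds_zero (2 * m + 2)).comp h1).const_mul
    (4 / b ^ (2 * m + 2))
  rw [mul_zero] at h2
  filter_upwards [h2.eventually_le_const one_pos, ge_ev θ 1] with p hp hp1
  refine le_trans ?_ hp
  show _ ≤ 4 / b ^ (2 * m + 2) * ((b * (p.1 : ℝ)) ^ (2 * m + 2) * exp (-(b * (p.1 : ℝ))))
  have h3 : (1 : ℝ) ≤ p.1 := by exact_mod_cast hp1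
  have hbp : b ^ (2 * m + 2) ≠ 0 := (pow_pos hb _).ne'
  have e1 : 4 / b ^ (2 * m + 2) * ((b * (p.1 : ℝ)) ^ (2 * m + 2) * exp (-(b * (p.1 : ℝ)))) =
      (p.1 : ℝ) ^ (2 * m) * (4 * (p.1 : ℝ) ^ 2) * exp (-b * p.1) := by
    rw [mul_pow, neg_mul]
    field_simp
    ring
  rw [e1]
  have h4 : ((p.1 : ℝ) + 1) ^ 2 ≤ 4 * (p.1 : ℝ) ^ 2 := by nlinarith
  refine mul_le_mul_of_nonneg_right ?_ (exp_pos _).le
  exact mul_le_mul_of_nonneg_left h4 (by positivity)

/-- the terms with a small genus of the first piece -/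
private noncomputable def finA (c1 δ' : ℝ) (m n : ℕ) (P q : ℕ × ℕ) : ℝ :=
  if m ≤ q.1 ∧ (q.1 : ℝ) ≤ δ' * n then exp (c1 * P.1) * (tt P.1 q.1 * tt P.2 q.2) else 0

private theorem finA_nonneg (c1 δ' : ℝ) (m n : ℕ) (P q : ℕ × ℕ) : 0 ≤ finA c1 δ' m n P q := by
  unfold finA
  split_ifs with h
  · exact mul_nonneg (exp_pos _).le (mul_nonneg (tt_nn _ _) (tt_nn _ _))
  · exact le_rfl

private theorem finA_sum (c1 δ' : ℝ) (m n g : ℕ) :
    ∑ P ∈ antidiagonal n, ∑ q ∈ antidiagonal g, finA c1 δ' m n P q =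
      ∑ i ∈ range (n + 1), ∑ a ∈ range (g + 1),
        (if m ≤ a ∧ (a : ℝ) ≤ δ' * n then
          exp (c1 * i) * (tt i a * tt (n - i) (g - a)) else 0) := by
  rw [Finset.Nat.sum_antidiagonal_eq_sum_range_succ_mk]
  refine Finset.sum_congr rfl fun i _ => ?_
  rw [Finset.Nat.sum_antidiagonal_eq_sum_range_succ_mk]
  rfl

private theorem finB_sum (c1 δ' : ℝ) (m n g : ℕ) :
    ∑ P ∈ antidiagonal n, ∑ q ∈ antidiagonal g, finA c1 δ' m n P.swap q.swap =
      ∑ P ∈ antidiagonal n, ∑ q ∈ antidiagonal g, finA c1 δ' m n P q := by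
  have h1 : ∀ P : ℕ × ℕ, ∑ q ∈ antidiagonal g, finA c1 δ' m n P.swap q.swap =
      ∑ q ∈ antidiagonal g, finA c1 δ' m n P.swap q := fun P =>
    Finset.Nat.sum_antidiagonal_swap (f := fun q => finA c1 δ' m n P.swap q)
  rw [Finset.sum_congr rfl fun P _ => h1 P]
  exact Finset.Nat.sum_antidiagonal_swap
    (f := fun P => ∑ q ∈ antidiagonal g, finA c1 δ' m n P q)

/-- THEOREM SEPB: both genera at least `m`: total mass `n^(-2m)`, exponential moment of the size of the smaller piece. -/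
theorem sepb {θ x : ℝ} (h : Num.Par θ x) : ∃ c : ℝ, 0 < c ∧ ∀ m : ℕ, ∃ C : ℝ, 0 < C ∧
    ∀ᶠ p in Fth θ, (p.1 : ℝ) ^ (2 * m) * SB c m p.1 p.2 ≤ C * tt p.1 p.2 := by
  obtain ⟨c1, δ', hc1, hδ', hsm⟩ := sm h
  obtain ⟨c2, hc2, hcc⟩ := cc_big h hδ'
  obtain ⟨c, hc⟩ : ∃ c : ℝ, c = min c1 (c2 / 2) := ⟨_, rfl⟩
  have hc0 : 0 < c := by
    rw [hc]
    exact lt_min hc1 (by positivity)
  have hcc1 : c ≤ c1 := by
    rw [hc]
    exact min_le_left _ _
  have hcc2 : c ≤ c2 / 2 := by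
    rw [hc]
    exact min_le_right _ _
  obtain ⟨δ, hδ, -, hgap⟩ := gap h.2.1
  refine ⟨c, hc0, fun m => ?_⟩
  obtain ⟨C₁, hC₁, hs⟩ := hsm m
  refine ⟨2 * C₁ + 1, by positivity, ?_⟩
  filter_upwards [hs, hcc, hgap, fin_exp θ (half_pos hc2) m] with p h1 h2 h3 h4
  obtain ⟨n, g⟩ := p
  dsimp only at h1 h2 h3 h4 ⊢
  have hgn : (g : ℝ) ≤ n := by
    have : (0 : ℝ) ≤ δ * n := by positivity
    have h5 : (0 : ℝ) ≤ g := Nat.cast_nonneg _
    linarith
  have hT : 0 ≤ tt n g := tt_nn n g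
  have hterm : ∀ P ∈ antidiagonal n, ∀ q ∈ antidiagonal g,
      (if m ≤ q.1 ∧ m ≤ q.2 then exp (c * min (P.1 : ℝ) P.2) * (tt P.1 q.1 * tt P.2 q.2) else 0) ≤
        finA c1 δ' m n P q + finA c1 δ' m n P.swap q.swap + exp (-(c2 / 2) * n) * tt n g := by
    intro P hP q hq
    rw [Finset.HasAntidiagonal.mem_antidiagonal] at hP hq
    have hA := finA_nonneg c1 δ' m n P q
    have hB := finA_nonneg c1 δ' m n P.swap q.swap
    have hD : 0 ≤ exp (-(c2 / 2) * n) * tt n g := mul_nonneg (exp_pos _).le hT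
    have hTT : 0 ≤ tt P.1 q.1 * tt P.2 q.2 := mul_nonneg (tt_nn _ _) (tt_nn _ _)
    have hP1 : (0 : ℝ) ≤ P.1 := Nat.cast_nonneg _
    have hP2 : (0 : ℝ) ≤ P.2 := Nat.cast_nonneg _
    have hmin0 : 0 ≤ min (P.1 : ℝ) P.2 := le_min hP1 hP2
    have hmin1 : min (P.1 : ℝ) P.2 ≤ P.1 := min_le_left _ _
    have hmin2 : min (P.1 : ℝ) P.2 ≤ P.2 := min_le_right _ _
    split_ifs with hm
    · by_cases ha : (q.1 : ℝ) ≤ δ' * n
      · have e1 : finA c1 δ' m n P q = exp (c1 * P.1) * (tt P.1 q.1 * tt P.2 q.2) := by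
          unfold finA
          rw [if_pos ⟨hm.1, ha⟩]
        have e2 : exp (c * min (P.1 : ℝ) P.2) ≤ exp (c1 * P.1) :=
          exp_le_exp.mpr (mul_le_mul hcc1 hmin1 hmin0 hc1.le)
        have e3 := mul_le_mul_of_nonneg_right e2 hTT
        rw [e1]
        linarith
      by_cases hb : (q.2 : ℝ) ≤ δ' * n
      · have e1 : finA c1 δ' m n P.swap q.swap = exp (c1 * P.2) * (tt P.2 q.2 * tt P.1 q.1) := by
          unfold finA
          rw [Prod.fst_swap, Prod.snd_swap, Prod.fst_swap, Prod.snd_swap, if_pos ⟨hm.2, hb⟩]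
        have e2 : exp (c * min (P.1 : ℝ) P.2) ≤ exp (c1 * P.2) :=
          exp_le_exp.mpr (mul_le_mul hcc1 hmin2 hmin0 hc1.le)
        have e3 := mul_le_mul_of_nonneg_right e2 hTT
        rw [e1, mul_comm (tt P.2 q.2)]
        linarith
      · have e1 := h2 P.1 P.2 q.1 q.2 hP hq (not_le.mp ha).le (not_le.mp hb).le
        have hPn : (P.1 : ℝ) + P.2 = n := by exact_mod_cast hP
        have e2 : exp (c * min (P.1 : ℝ) P.2) ≤ exp (c2 / 2 * n) :=
          exp_le_exp.mpr (mul_le_mul hcc2 (by linarith) hmin0 (by positivity))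
        have e3 : exp (c * min (P.1 : ℝ) P.2) * (tt P.1 q.1 * tt P.2 q.2) ≤
            exp (c2 / 2 * n) * (exp (-c2 * n) * tt n g) :=
          mul_le_mul e2 e1 hTT (exp_pos _).le
        have e4 : exp (c2 / 2 * n) * (exp (-c2 * n) * tt n g) = exp (-(c2 / 2) * n) * tt n g := by
          rw [← mul_assoc, ← exp_add]
          congr 2
          ring
        linarith
    · linarith
  have hSB : SB c m n g ≤ ∑ P ∈ antidiagonal n, ∑ q ∈ antidiagonal g,
      (finA c1 δ' m n P q + finA c1 δ' m n P.swap q.swap + exp (-(c2 / 2) * n) * tt n g) :=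
    Finset.sum_le_sum fun P hP => Finset.sum_le_sum fun q hq => hterm P hP q hq
  have hsplit : ∑ P ∈ antidiagonal n, ∑ q ∈ antidiagonal g,
      (finA c1 δ' m n P q + finA c1 δ' m n P.swap q.swap + exp (-(c2 / 2) * n) * tt n g) =
      2 * (∑ P ∈ antidiagonal n, ∑ q ∈ antidiagonal g, finA c1 δ' m n P q) +
        ((n : ℝ) + 1) * (((g : ℝ) + 1) * (exp (-(c2 / 2) * n) * tt n g)) := by
    have e1 : ∀ P : ℕ × ℕ, ∑ q ∈ antidiagonal g,
        (finA c1 δ' m n P q + finA c1 δ' m n P.swap q.swap + exp (-(c2 / 2) * n) * tt n g) =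
        ∑ q ∈ antidiagonal g, finA c1 δ' m n P q +
          ∑ q ∈ antidiagonal g, finA c1 δ' m n P.swap q.swap +
          ((g : ℝ) + 1) * (exp (-(c2 / 2) * n) * tt n g) := by
      intro P
      rw [Finset.sum_add_distrib, Finset.sum_add_distrib, Finset.sum_const,
        Finset.Nat.card_antidiagonal, nsmul_eq_mul, Nat.cast_add, Nat.cast_one]
    rw [Finset.sum_congr rfl fun P _ => e1 P, Finset.sum_add_distrib, Finset.sum_add_distrib,
      finB_sum, Finset.sum_const, Finset.Nat.card_antidiagonal, nsmul_eq_mul, Nat.cast_add,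
      Nat.cast_one]
    ring
  rw [hsplit, finA_sum] at hSB
  have hpow : (0 : ℝ) ≤ (n : ℝ) ^ (2 * m) := by positivity
  have hlast : (n : ℝ) ^ (2 * m) *
      (((n : ℝ) + 1) * (((g : ℝ) + 1) * (exp (-(c2 / 2) * n) * tt n g))) ≤ tt n g := by
    have e1 : ((n : ℝ) + 1) * ((g : ℝ) + 1) ≤ ((n : ℝ) + 1) ^ 2 := by
      have : (0 : ℝ) ≤ (n : ℝ) + 1 := by positivity
      nlinarith
    have hE : 0 ≤ exp (-(c2 / 2) * n) := (exp_pos _).le
    calc (n : ℝ) ^ (2 * m) *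
          (((n : ℝ) + 1) * (((g : ℝ) + 1) * (exp (-(c2 / 2) * n) * tt n g)))
        = (n : ℝ) ^ (2 * m) * (((n : ℝ) + 1) * ((g : ℝ) + 1)) * exp (-(c2 / 2) * n) * tt n g := by
          ring
      _ ≤ (n : ℝ) ^ (2 * m) * ((n : ℝ) + 1) ^ 2 * exp (-(c2 / 2) * n) * tt n g := by
          refine mul_le_mul_of_nonneg_right (mul_le_mul_of_nonneg_right ?_ hE) hT
          exact mul_le_mul_of_nonneg_left e1 hpow
      _ ≤ 1 * tt n g := mul_le_mul_of_nonneg_right h4 hT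
      _ = tt n g := one_mul _
  have hfin := mul_le_mul_of_nonneg_left hSB hpow
  rw [mul_add] at hfin
  linarith

end SYS.SP
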