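import Pool.Agent.SYS.SP.Fin

/-!
# SYS-SP-Area: pieces of size at least `C log n` on both sides

PROOF.  `sepb` with `m = 0`: `SB c 0 n g ≤ C tt n g`.  Put `D := A/c`.  For `P ∈ antidiagonal n` with `P.1, P.2 ≥ D log n`: `exp (c * min P.1 P.2) ≥ exp (A log n) = n^A` (`n ≥ 1`), so the sum is
`≤ n^(-A) SB c 0 n g` (all terms of `SB` are nonnegative: `tt_nn`).
-/

namespace SYS.SP

open SYS.RB Filter Topology Finset Real

theorem area {θ x : ℝ} (h : Num.Par θ x) (A : ℕ) : ∃ D K : ℝ, 0 < D ∧ 0 < K ∧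
    ∀ᶠ p in Fth θ, (p.1 : ℝ) ^ A * (∑ P ∈ antidiagonal p.1, ∑ q ∈ antidiagonal p.2,
      if D * Real.log p.1 ≤ ((P.1 : ℕ) : ℝ) ∧ D * Real.log p.1 ≤ ((P.2 : ℕ) : ℝ) then
        tt P.1 q.1 * tt P.2 q.2 else 0) ≤ K * tt p.1 p.2 := by
  obtain ⟨c, hc, h1⟩ := sepb h
  obtain ⟨C, hC, h2⟩ := h1 0
  refine ⟨((A : ℝ) + 1) / c, C, by positivity, hC, ?_⟩
  filter_upwards [h2, ge_ev θ 1] with p h2 h3
  rw [Nat.mul_zero, pow_zero, one_mul] at h2
  refine le_trans ?_ h2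
  have hp : (1 : ℝ) ≤ p.1 := by exact_mod_cast h3
  have hlog : 0 ≤ Real.log p.1 := Real.log_nonneg hp
  unfold SB
  rw [mul_sum]
  refine sum_le_sum fun P _ => ?_
  rw [mul_sum]
  refine sum_le_sum fun q _ => ?_
  have h4 : 0 ≤ tt P.1 q.1 * tt P.2 q.2 := mul_nonneg (tt_nn _ _) (tt_nn _ _)
  rw [if_pos (c := 0 ≤ q.1 ∧ 0 ≤ q.2) ⟨Nat.zero_le _, Nat.zero_le _⟩]
  split_ifs with h5
  · refine mul_le_mul_of_nonneg_right ?_ h4
    have h6 : ((A : ℝ) + 1) / c * Real.log p.1 ≤ min (P.1 : ℝ) P.2 := le_min h5.1 h5.2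
    have h7 : (A : ℝ) * Real.log p.1 ≤ c * min (P.1 : ℝ) P.2 := by
      have h8 := mul_le_mul_of_nonneg_left h6 hc.le
      have h9 : c * (((A : ℝ) + 1) / c * Real.log p.1) = (A + 1) * Real.log p.1 := by
        field_simp
      rw [h9] at h8
      linarith
    calc (p.1 : ℝ) ^ A = exp (A * Real.log p.1) := by
          rw [mul_comm, Real.exp_mul, Real.exp_log (by linarith), Real.rpow_natCast]
      _ ≤ _ := exp_le_exp.2 h7
  · rw [mul_zero]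
    positivity

end SYS.SP
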