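import Pool.Agent.SYS.SP.Rt

/-!
# SYS-SP-Ri: iterated ratio bounds

PROOF.
* `ttp_iter`: for all `n ≥ n0`, `g ≥ (θ - δ) n` and `l ≤ n`: `tt (n - l) g ≤ ((1+ε) yy x)^l tt n g`: induction on `l`; at sizes `n' = n - l - 1 ≥ n1` (`n1` from `ttp`): `ttp`, as
  `(θ - δ) n' ≤ (θ - δ) n ≤ g` (if `θ - δ ≥ 0`: take `δ ≤ θ/2`); at sizes `n' < n1`: `tt n' g = 0` as `2 g ≥ 2 (θ/2) n > n1` for `n ≥ n0` (`tt_eq_zero`).
* `ttk_iter`: for `n ≥ n0`, `|g/n - θ| < δ`, `l ≤ δ n`: product of `l` inequalities `ttk` at `g, g-1, .., g-l+1` (window `2δ`):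
  `((1-ε) chi x)^l tt n g ≤ n^(2l) tt n (g-l) ≤ ((1+ε) chi x)^l tt n g`.
-/

namespace SYS.SP

open SYS.RB Filter Topology Finset Real

theorem ttp_iter {θ x : ℝ} (h : Num.Par θ x) {ε : ℝ} (hε : 0 < ε) :
    ∃ δ : ℝ, 0 < δ ∧ ∃ n0 : ℕ, ∀ n ≥ n0, ∀ g : ℕ, (θ - δ) * n ≤ g → ∀ l ≤ n,
      tt (n - l) g ≤ ((1 + ε) * Num.yy x) ^ l * tt n g := by
  have hy := yy_pos x
  have hθ : 0 < θ := h.1
  obtain ⟨δ1, hδ1, n1, h1⟩ := ttp h hε
  obtain ⟨n0, hn0⟩ := exists_nat_gt ((n1 : ℝ) / θ)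
  refine ⟨min δ1 (θ / 2), lt_min hδ1 (by linarith), n0, fun n hn g hg l => ?_⟩
  have hd1 : min δ1 (θ / 2) ≤ δ1 := min_le_left _ _
  have hd2 : min δ1 (θ / 2) ≤ θ / 2 := min_le_right _ _
  have hnn : (n0 : ℝ) ≤ n := by exact_mod_cast hn
  have hn1 : (n1 : ℝ) < θ * n := by
    rw [div_lt_iff₀ hθ] at hn0
    nlinarith
  have hg2 : n1 < 2 * g := by
    have h3 : (n1 : ℝ) < ((2 * g : ℕ) : ℝ) := by
      push_cast
      have h4 : θ / 2 * n ≤ (θ - min δ1 (θ / 2)) * n :=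
        mul_le_mul_of_nonneg_right (by linarith) (Nat.cast_nonneg n)
      linarith
    exact_mod_cast h3
  induction l with
  | zero => intro _; simp
  | succ l ih =>
    intro hl
    have h8 := ih (by omega)
    rcases le_or_gt n1 (n - (l + 1)) with h9 | h9
    · have h10 := h1 (n - (l + 1)) h9 g (by
        have h5 : ((n - (l + 1) : ℕ) : ℝ) ≤ n := by exact_mod_cast Nat.sub_le _ _
        calc (θ - δ1) * ((n - (l + 1) : ℕ) : ℝ)
            ≤ (θ - min δ1 (θ / 2)) * ((n - (l + 1) : ℕ) : ℝ) :=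
              mul_le_mul_of_nonneg_right (by linarith) (Nat.cast_nonneg _)
          _ ≤ (θ - min δ1 (θ / 2)) * n :=
              mul_le_mul_of_nonneg_left h5 (by linarith)
          _ ≤ g := hg)
      have h11 : n - (l + 1) + 1 = n - l := by omega
      rw [h11] at h10
      calc tt (n - (l + 1)) g ≤ (1 + ε) * Num.yy x * tt (n - l) g := h10
        _ ≤ (1 + ε) * Num.yy x * (((1 + ε) * Num.yy x) ^ l * tt n g) :=
            mul_le_mul_of_nonneg_left h8 (by positivity)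
        _ = _ := by ring
    · rw [tt_eq_zero (m := n - (l + 1)) (g := g) (by omega)]
      have := tt_nn n g
      positivity

theorem ttk_iter {θ x : ℝ} (h : Num.Par θ x) {ε : ℝ} (hε : 0 < ε) (hε' : ε < 1) :
    ∃ δ : ℝ, 0 < δ ∧ ∃ n0 : ℕ, ∀ n ≥ n0, ∀ g : ℕ, |(g : ℝ) / n - θ| < δ → ∀ l : ℕ,
      (l : ℝ) ≤ δ * n → ((1 - ε) * chi x) ^ l * tt n g ≤ (n : ℝ) ^ (2 * l) * tt n (g - l) ∧
        (n : ℝ) ^ (2 * l) * tt n (g - l) ≤ ((1 + ε) * chi x) ^ l * tt n g := by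
  have hchi : 0 ≤ chi x := by unfold chi; positivity
  obtain ⟨δ1, hδ1, n1, h1⟩ := ttk h hε
  refine ⟨δ1 / 2, by linarith, max n1 1, fun n hn g hg l => ?_⟩
  have hn1 : n1 ≤ n := le_trans (le_max_left _ _) hn
  have hnp : (0 : ℝ) < n := by
    have : 0 < n := lt_of_lt_of_le Nat.one_pos (le_trans (le_max_right _ _) hn)
    exact_mod_cast this
  rw [abs_lt] at hg
  induction l with
  | zero => intro _; simp
  | succ l ih =>
    intro hl
    push_cast at hl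
    obtain ⟨i1, i2⟩ := ih (by linarith)
    have hw : |((g - l : ℕ) : ℝ) / n - θ| < δ1 := by
      have hlo : (g : ℝ) - l ≤ ((g - l : ℕ) : ℝ) := by
        have : g ≤ (g - l) + l := by omega
        have h2 : (g : ℝ) ≤ (((g - l) + l : ℕ) : ℝ) := by exact_mod_cast this
        push_cast at h2
        linarith
      have hup : ((g - l : ℕ) : ℝ) ≤ g := by exact_mod_cast Nat.sub_le _ _
      have e1 : ((g - l : ℕ) : ℝ) / n ≤ (g : ℝ) / n := by gcongr
      have e2 : (g : ℝ) / n - l / n ≤ ((g - l : ℕ) : ℝ) / n := by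
        rw [← sub_div]
        gcongr
      have e3 : (l : ℝ) / n ≤ δ1 / 2 := by
        rw [div_le_iff₀ hnp]
        linarith
      rw [abs_lt]
      constructor <;> linarith
    obtain ⟨-, k1, k2⟩ := h1 n hn1 (g - l) hw
    have hs : g - (l + 1) = g - l - 1 := by omega
    have hp : (n : ℝ) ^ (2 * (l + 1)) = n ^ (2 * l) * (n : ℝ) ^ 2 := by ring
    have ha : 0 ≤ (1 - ε) * chi x := mul_nonneg (by linarith) hchi
    have hb : 0 ≤ (1 + ε) * chi x := mul_nonneg (by linarith) hchi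
    have hq : (0 : ℝ) ≤ (n : ℝ) ^ (2 * l) := by positivity
    rw [hs, hp]
    constructor
    · calc ((1 - ε) * chi x) ^ (l + 1) * tt n g
          = ((1 - ε) * chi x) * (((1 - ε) * chi x) ^ l * tt n g) := by ring
        _ ≤ ((1 - ε) * chi x) * ((n : ℝ) ^ (2 * l) * tt n (g - l)) :=
            mul_le_mul_of_nonneg_left i1 ha
        _ = (n : ℝ) ^ (2 * l) * ((1 - ε) * chi x * tt n (g - l)) := by ring
        _ ≤ (n : ℝ) ^ (2 * l) * ((n : ℝ) ^ 2 * tt n (g - l - 1)) :=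
            mul_le_mul_of_nonneg_left k1 hq
        _ = _ := by ring
    · calc (n : ℝ) ^ (2 * l) * (n : ℝ) ^ 2 * tt n (g - l - 1)
          = (n : ℝ) ^ (2 * l) * ((n : ℝ) ^ 2 * tt n (g - l - 1)) := by ring
        _ ≤ (n : ℝ) ^ (2 * l) * ((1 + ε) * chi x * tt n (g - l)) :=
            mul_le_mul_of_nonneg_left k2 hq
        _ = ((1 + ε) * chi x) * ((n : ℝ) ^ (2 * l) * tt n (g - l)) := by ring
        _ ≤ ((1 + ε) * chi x) * (((1 + ε) * chi x) ^ l * tt n g) :=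
            mul_le_mul_of_nonneg_left i2 hb
        _ = _ := by ring

end SYS.SP
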