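import Pool.Agent.SYS.SP.GOne
import Pool.Agent.SYS.SP.Ri

/-!
# SYS-SP-Bb: products with a small genus on one side
-/

namespace SYS.SP

open SYS.RB Filter Topology Finset Real

private theorem bb_alg {A i n y t e s E C0 χ T0 T1 T2 T3 B : ℝ} {a k : ℕ} (hn : 0 < n) (hy : 0 < y)
    (_ : 0 ≤ i) (hC0 : 0 < C0) (hB : 0 ≤ B) (hχ : 0 < χ) (hE : 0 ≤ E) (ht : 0 ≤ t) (he : 0 ≤ e)
    (hT0 : 0 ≤ T0) (hT2 : 0 ≤ T2) (hT3 : 0 ≤ T3)
    (h0 : T0 * y ^ k ≤ C0 * (E * E)) (hA : A ≤ (B * i ^ 2) ^ a * t ^ k * T0)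
    (h1 : T1 ≤ (e * y) ^ k * T2) (h2 : n ^ (2 * a) * T2 ≤ (s * χ) ^ a * T3)
    (hs : 0 ≤ s) (hte : (t * e) ^ k * E ≤ 1) (hT1 : 0 ≤ T1) :
    A * T1 ≤ C0 * ((B * s * χ * (i / n) ^ 2) ^ a * E) * T3 := by
  have hyk : 0 < y ^ k := pow_pos hy k
  have hn2 : 0 < n ^ (2 * a) := pow_pos hn _
  have e1 : A * T1 ≤ ((B * i ^ 2) ^ a * t ^ k * T0) * ((e * y) ^ k * T2) :=
    mul_le_mul hA h1 hT1 (by positivity)
  have e2 : ((B * i ^ 2) ^ a * t ^ k * T0) * ((e * y) ^ k * T2) =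
      (B * i ^ 2) ^ a * (t * e) ^ k * (T0 * y ^ k) * T2 := by
    rw [mul_pow e y, mul_pow t e]
    ring
  have e3 : T2 ≤ (s * χ) ^ a * T3 / n ^ (2 * a) := by
    rw [le_div_iff₀ hn2, mul_comm]
    exact h2
  have e4 : (B * i ^ 2) ^ a * (t * e) ^ k * (T0 * y ^ k) * T2 ≤
      (B * i ^ 2) ^ a * (t * e) ^ k * (C0 * (E * E)) * ((s * χ) ^ a * T3 / n ^ (2 * a)) := by
    refine mul_le_mul ?_ e3 hT2 (by positivity)
    exact mul_le_mul_of_nonneg_left h0 (by positivity)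
  have e5 : (B * i ^ 2) ^ a * (t * e) ^ k * (C0 * (E * E)) * ((s * χ) ^ a * T3 / n ^ (2 * a)) =
      ((t * e) ^ k * E) * (C0 * ((B * s * χ * (i / n) ^ 2) ^ a * E) * T3) := by
    have e6 : (B * s * χ * (i / n) ^ 2) ^ a = (B * i ^ 2) ^ a * (s * χ) ^ a / n ^ (2 * a) := by
      rw [pow_mul n 2 a, ← mul_pow, ← div_pow]
      congr 1
      field_simp
    rw [e6]
    ring
  have e7 : ((t * e) ^ k * E) * (C0 * ((B * s * χ * (i / n) ^ 2) ^ a * E) * T3) ≤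
      1 * (C0 * ((B * s * χ * (i / n) ^ 2) ^ a * E) * T3) :=
    mul_le_mul_of_nonneg_right hte (by positivity)
  linarith

theorem bb {θ x : ℝ} (h : Num.Par θ x) :
    ∃ c0 C1 δ0 K : ℝ, 0 < c0 ∧ 1 ≤ C1 ∧ 0 < δ0 ∧ 0 < K ∧ ∀ᶠ p in Fth θ, ∀ i a : ℕ,
      i ≤ p.1 → a ≤ p.2 → (a : ℝ) ≤ δ0 * p.1 →
        tt i a * tt (p.1 - i) (p.2 - a) ≤
          K * ((C1 * ((i : ℝ) / p.1) ^ 2) ^ a * exp (-c0 * i)) * tt p.1 p.2 := by
  obtain ⟨c1, hc1, C0, hC0, hdec⟩ := dec h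
  have hy := yy_pos x
  have hχ := chi_pos h.2.2.1
  obtain ⟨t, ht⟩ : ∃ t : ℝ, t = exp (c1 / 4) := ⟨_, rfl⟩
  have ht1 : 1 < t := by
    rw [ht]
    exact Real.one_lt_exp_iff.2 (by linarith)
  have ht0 : 0 < t - 1 := by linarith
  obtain ⟨B, hB1, hB2⟩ : ∃ B : ℝ, 1 ≤ B ∧ 1 + 1 / B ≤ t := by
    refine ⟨max 1 (1 / (t - 1)), le_max_left _ _, ?_⟩
    have h1 : 1 / (t - 1) ≤ max 1 (1 / (t - 1)) := le_max_right _ _
    have h2 : 1 / max 1 (1 / (t - 1)) ≤ 1 / (1 / (t - 1)) :=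
      one_div_le_one_div_of_le (by positivity) h1
    rw [one_div_one_div] at h2
    linarith
  obtain ⟨δ1, hδ1, n1, hp⟩ := ttp_iter h ht0
  obtain ⟨δ2, hδ2, n2, hk⟩ := ttk_iter h (ε := 1 / 2) (by norm_num) (by norm_num)
  have h1t : 1 + (t - 1) = t := by ring
  rw [h1t] at hp
  refine ⟨c1 / 2, max 1 (B * (1 + 1 / 2) * chi x), min (δ1 / 2) δ2, C0, by linarith,
    le_max_left _ _, lt_min (by linarith) hδ2, hC0, ?_⟩
  rw [Fth_ev]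
  refine ⟨min (δ1 / 2) δ2, lt_min (by linarith) hδ2, n1 + n2 + 1, ?_⟩
  intro n hn g hg i a hi ha haδ
  have hn0 : (0 : ℝ) < n := by exact_mod_cast (by omega : 0 < n)
  have hi' : i ≤ n := hi
  have ha' : a ≤ g := ha
  have haδ' : (a : ℝ) ≤ min (δ1 / 2) δ2 * n := haδ
  show tt i a * tt (n - i) (g - a) ≤ C0 * ((max 1 (B * (1 + 1 / 2) * chi x) * ((i : ℝ) / n) ^ 2) ^ a *
    exp (-(c1 / 2) * i)) * tt n g
  have hgn : θ - min (δ1 / 2) δ2 < (g : ℝ) / n := by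
    have := (abs_lt.1 hg).1
    linarith
  have hm1 : min (δ1 / 2) δ2 ≤ δ1 / 2 := min_le_left _ _
  have hm2 : min (δ1 / 2) δ2 ≤ δ2 := min_le_right _ _
  have hgl : (θ - δ1) * n ≤ ((g - a : ℕ) : ℝ) := by
    rw [Nat.cast_sub ha']
    have h3 : (θ - min (δ1 / 2) δ2) * n < g := by
      rw [lt_div_iff₀ hn0] at hgn
      exact hgn
    have h4 : min (δ1 / 2) δ2 * n ≤ δ1 / 2 * n := mul_le_mul_of_nonneg_right hm1 hn0.le
    have h5 : (θ - δ1) * n = (θ - min (δ1 / 2) δ2) * n + min (δ1 / 2) δ2 * n - δ1 * n := by ring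
    nlinarith
  have h1 := hp n (by omega) (g - a) hgl i hi'
  have h2 := (hk n (by omega) g (lt_of_lt_of_le hg hm2) a
    (haδ'.trans (mul_le_mul_of_nonneg_right hm2 hn0.le))).2
  have hA : tt i a ≤ (B * (i : ℝ) ^ 2) ^ a * t ^ i * tt i 0 := by
    refine (g_one gj hB1 i a).trans ?_
    refine mul_le_mul_of_nonneg_right ?_ (tt_nn _ _)
    refine mul_le_mul_of_nonneg_left ?_ (by positivity)
    exact pow_le_pow_left₀ (by positivity) hB2 i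
  have h0 : tt i 0 * Num.yy x ^ i ≤ C0 * (exp (-(c1 / 2) * i) * exp (-(c1 / 2) * i)) := by
    refine (hdec i).trans (le_of_eq ?_)
    rw [← Real.exp_add]
    congr 2
    ring
  have hte : (t * t) ^ i * exp (-(c1 / 2) * i) ≤ 1 := by
    rw [ht, ← Real.exp_add, ← Real.exp_nat_mul, ← Real.exp_add]
    refine le_of_eq ?_
    rw [Real.exp_eq_one_iff]
    ring
  have key := bb_alg (A := tt i a) (T1 := tt (n - i) (g - a)) (i := (i : ℝ)) (n := (n : ℝ)) hn0 hy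
    (Nat.cast_nonneg i) hC0 (by linarith : (0 : ℝ) ≤ B) hχ (Real.exp_pos _).le (by linarith)
    (by linarith) (tt_nn i 0) (tt_nn n (g - a)) (tt_nn n g) h0 hA h1 h2 (by norm_num) hte (tt_nn _ _)
  refine key.trans ?_
  refine mul_le_mul_of_nonneg_right ?_ (tt_nn _ _)
  refine mul_le_mul_of_nonneg_left ?_ hC0.le
  refine mul_le_mul_of_nonneg_right ?_ (Real.exp_pos _).le
  refine pow_le_pow_left₀ (by positivity) ?_ a
  exact mul_le_mul_of_nonneg_right (le_max_right _ _) (sq_nonneg _)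

end SYS.SP
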