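import Pool.Agent.SYS.SP.Ri

/-!
# SYS-SP-Ca: two big pieces, moving faces to the proportional sizes

`n = p.1`, `g = p.2`, `i + j = n`, `a + b = g` (genera), `a, b ≥ δ' n`. The sizes are changed to `i' = a n / g` (rounded) and
`j' = n - i'`, with the ratio bounds `ttp` and `ttm` for every step.
-/

namespace SYS.SP

open SYS.RB Filter Topology Finset Real

private theorem ca_down {θ δ δ' c : ℝ} {n0 : ℕ} (hθ : 0 ≤ θ + δ) (hδ' : 0 ≤ δ') (hc : 0 ≤ c)
    (h : ∀ n ≥ n0, ∀ g : ℕ, δ' * n ≤ g → (g : ℝ) ≤ (θ + δ) * n → c * tt (n + 1) g ≤ tt n g)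
    {i a : ℕ} (hi : n0 ≤ i) (ha : (a : ℝ) ≤ (θ + δ) * i) (l : ℕ) (hl : δ' * ((i : ℝ) + l) ≤ a) :
    c ^ l * tt (i + l) a ≤ tt i a := by
  induction l with
  | zero => rw [pow_zero, one_mul, Nat.add_zero]
  | succ l ih =>
    have e0 : ((l + 1 : ℕ) : ℝ) = (l : ℝ) + 1 := by push_cast; ring
    rw [e0] at hl
    have h1 : δ' * ((i : ℝ) + l) ≤ a := by nlinarith
    have h2 : δ' * ((i + l : ℕ) : ℝ) ≤ a := by
      push_cast
      exact h1
    have h3 : (a : ℝ) ≤ (θ + δ) * ((i + l : ℕ) : ℝ) := by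
      have hl0 : (0 : ℝ) ≤ l := Nat.cast_nonneg l
      push_cast
      nlinarith [mul_nonneg hθ hl0]
    have h4 := h (i + l) (by omega) a h2 h3
    calc c ^ (l + 1) * tt (i + (l + 1)) a = c ^ l * (c * tt (i + l + 1) a) := by
          rw [pow_succ, ← Nat.add_assoc]
          ring
      _ ≤ c ^ l * tt (i + l) a := mul_le_mul_of_nonneg_left h4 (pow_nonneg hc l)
      _ ≤ tt i a := ih h1

private theorem ca_up {θ δ c : ℝ} {n0 : ℕ} (hc : 0 ≤ c)
    (h : ∀ n ≥ n0, ∀ g : ℕ, (θ - δ) * n ≤ g → tt n g ≤ c * tt (n + 1) g)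
    {j b : ℕ} (hb : n0 ≤ 2 * b) (l : ℕ) (hl : (θ - δ) * ((j : ℝ) + l) ≤ b) :
    tt j b ≤ c ^ l * tt (j + l) b := by
  induction l with
  | zero => rw [pow_zero, one_mul, Nat.add_zero]
  | succ l ih =>
    have e0 : ((l + 1 : ℕ) : ℝ) = (l : ℝ) + 1 := by push_cast; ring
    rw [e0] at hl
    have hl0 : (0 : ℝ) ≤ l := Nat.cast_nonneg l
    have hj0 : (0 : ℝ) ≤ j := Nat.cast_nonneg j
    have hb0 : (0 : ℝ) ≤ b := Nat.cast_nonneg b
    have h1 : (θ - δ) * ((j : ℝ) + l) ≤ b := by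
      rcases le_total 0 (θ - δ) with h0 | h0
      · nlinarith
      · have : (θ - δ) * ((j : ℝ) + l) ≤ 0 := mul_nonpos_of_nonpos_of_nonneg h0 (by positivity)
        linarith
    have h2 : tt (j + l) b ≤ c * tt (j + l + 1) b := by
      rcases Nat.lt_or_ge (j + l) n0 with h3 | h3
      · rw [tt_eq_zero (by omega : j + l < 2 * b)]
        exact mul_nonneg hc (tt_nn _ _)
      · refine h (j + l) h3 b ?_
        push_cast
        exact h1
    calc tt j b ≤ c ^ l * tt (j + l) b := ih h1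
      _ ≤ c ^ l * (c * tt (j + l + 1) b) := mul_le_mul_of_nonneg_left h2 (pow_nonneg hc l)
      _ = c ^ (l + 1) * tt (j + (l + 1)) b := by
        rw [pow_succ, ← Nat.add_assoc]
        ring

/-- moving `l` faces from `i + l` to `j` -/
private theorem ca_move {θ δ δ' c1 c2 e : ℝ} {n0 : ℕ} (hθ : 0 ≤ θ + δ) (hδ' : 0 ≤ δ') (hc1 : 0 < c1) (hc2 : 0 ≤ c2)
    (he : 0 ≤ e) (h12 : c2 ≤ (1 + e) * c1)
    (h : ∀ n ≥ n0, ∀ g : ℕ, δ' * n ≤ g → (g : ℝ) ≤ (θ + δ) * n → c1 * tt (n + 1) g ≤ tt n g)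
    (h' : ∀ n ≥ n0, ∀ g : ℕ, (θ - δ) * n ≤ g → tt n g ≤ c2 * tt (n + 1) g)
    {n i j a b l : ℕ} (hi : n0 ≤ i) (hb : n0 ≤ 2 * b) (ha : (a : ℝ) ≤ (θ + δ) * i) (hl : δ' * ((i : ℝ) + l) ≤ a)
    (hl' : (θ - δ) * ((j : ℝ) + l) ≤ b) (hn : l ≤ n) :
    tt (i + l) a * tt j b ≤ (1 + e) ^ n * (tt i a * tt (j + l) b) := by
  have h1 := ca_down hθ hδ' hc1.le h hi ha l hl
  have h2 := ca_up hc2 h' hb l hl'
  have h3 : c2 ^ l ≤ (1 + e) ^ l * c1 ^ l := by
    rw [← mul_pow]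
    exact pow_le_pow_left₀ hc2 h12 l
  have h4 : (1 + e) ^ l ≤ (1 + e) ^ n := pow_le_pow_right₀ (by linarith) hn
  have hp : 0 < c1 ^ l := pow_pos hc1 l
  have t1 := tt_nn (i + l) a
  have t2 := tt_nn j b
  have t3 := tt_nn i a
  have t4 := tt_nn (j + l) b
  have h5 : c1 ^ l * (tt (i + l) a * tt j b) ≤ c1 ^ l * ((1 + e) ^ l * (tt i a * tt (j + l) b)) := by
    calc c1 ^ l * (tt (i + l) a * tt j b) = (c1 ^ l * tt (i + l) a) * tt j b := by ring
      _ ≤ tt i a * (c2 ^ l * tt (j + l) b) := mul_le_mul h1 h2 t2 t3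
      _ ≤ tt i a * (((1 + e) ^ l * c1 ^ l) * tt (j + l) b) :=
          mul_le_mul_of_nonneg_left (mul_le_mul_of_nonneg_right h3 t4) t3
      _ = c1 ^ l * ((1 + e) ^ l * (tt i a * tt (j + l) b)) := by ring
  refine (le_of_mul_le_mul_left h5 hp).trans ?_
  exact mul_le_mul_of_nonneg_right h4 (mul_nonneg t3 t4)

private theorem ca_rat {θ η δ' n g a b I : ℝ} (hη : 0 < η) (hη1 : η ≤ 1) (hθ : 0 < θ) (hθ1 : θ < 1 / 2) (hn : 0 < n)
    (hδ' : 0 < δ') (hg : |g / n - θ| < η / 4) (hab : a + b = g) (ha : δ' * n ≤ a) (hb : δ' * n ≤ b)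
    (h1 : I * g ≤ a * n) (h2 : a * n < (I + 1) * g) (hN : 2 ≤ δ' * n) (hN' : 4 ≤ 3 * η * (δ' / 2 * n)) :
    δ' / 2 * n ≤ I ∧ δ' / 2 * n ≤ n - I ∧ |a - θ * I| < η * I ∧ |b - θ * (n - I)| < η * (n - I) := by
  rw [abs_lt] at hg
  have hg0 : 0 < g := by
    have : 0 < δ' * n := mul_pos hδ' hn
    linarith
  have hg1 : g < (θ + η / 4) * n := by
    have : g / n < θ + η / 4 := by linarith [hg.2]
    rwa [div_lt_iff₀ hn] at this
  have hg2 : (θ - η / 4) * n < g := by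
    have : θ - η / 4 < g / n := by linarith [hg.1]
    rwa [lt_div_iff₀ hn] at this
  have hgn : g ≤ n := by nlinarith
  have hI : δ' / 2 * n ≤ I := by
    by_contra hc
    push Not at hc
    have e1 : (I + 1) * g ≤ δ' * n * g := mul_le_mul_of_nonneg_right (by linarith) hg0.le
    have e2 : δ' * n * g ≤ δ' * n * n := mul_le_mul_of_nonneg_left hgn (by linarith)
    have e3 : δ' * n * n ≤ a * n := mul_le_mul_of_nonneg_right ha hn.le
    linarith
  have hJ0 : b * n ≤ g * (n - I) := by nlinarith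
  have hJ : δ' * n ≤ n - I := by
    by_contra hc
    push Not at hc
    have e1 : g * (n - I) < g * (δ' * n) := mul_lt_mul_of_pos_left hc hg0
    have e2 : g * (δ' * n) ≤ n * (δ' * n) := mul_le_mul_of_nonneg_right hgn (by linarith)
    have e3 : δ' * n * n ≤ b * n := mul_le_mul_of_nonneg_right hb hn.le
    linarith
  have hI0 : 0 < I := lt_of_lt_of_le (by positivity) hI
  have hJ1 : 2 ≤ n - I := hN.trans hJ
  have hJ' : δ' / 2 * n ≤ n - I := by linarith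
  refine ⟨hI, hJ', ?_, ?_⟩
  · rw [abs_lt]
    constructor
    · have e1 : I * ((θ - η / 4) * n) < a * n := lt_of_lt_of_le (mul_lt_mul_of_pos_left hg2 hI0) h1
      have e2 : I * (θ - η / 4) * n < a * n := by linarith
      have e3 := lt_of_mul_lt_mul_right e2 hn.le
      nlinarith
    · have e1 : (I + 1) * g < (I + 1) * ((θ + η / 4) * n) := mul_lt_mul_of_pos_left hg1 (by linarith)
      have e2 : a * n < (I + 1) * (θ + η / 4) * n := by linarith
      have e3 := lt_of_mul_lt_mul_right e2 hn.le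
      have e4 : 3 * η * (δ' / 2 * n) ≤ 3 * η * I := mul_le_mul_of_nonneg_left hI (by positivity)
      nlinarith
  · rw [abs_lt]
    have f1 : g * (n - I - 1) < b * n := by nlinarith
    constructor
    · have e1 : (θ - η / 4) * n * (n - I - 1) ≤ g * (n - I - 1) :=
        mul_le_mul_of_nonneg_right hg2.le (by linarith)
      have e2 : (θ - η / 4) * (n - I - 1) * n < b * n := by nlinarith
      have e3 := lt_of_mul_lt_mul_right e2 hn.le
      have e4 : 3 * η * (δ' / 2 * n) ≤ 3 * η * (n - I) := mul_le_mul_of_nonneg_left hJ' (by positivity)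
      nlinarith
    · have e1 : g * (n - I) < (θ + η / 4) * n * (n - I) := mul_lt_mul_of_pos_right hg1 (by linarith)
      have e2 : b * n < (θ + η / 4) * (n - I) * n := by nlinarith
      have e3 := lt_of_mul_lt_mul_right e2 hn.le
      nlinarith

private theorem ca_div {θ a I ε η : ℝ} (hI : 0 < I) (h : |a - θ * I| < η * I) (hε : η ≤ ε) : |a / I - θ| < ε := by
  have h1 : a / I - θ = (a - θ * I) / I := by
    field_simp
  rw [h1, abs_div, abs_of_pos hI, div_lt_iff₀ hI]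
  exact h.trans_le (mul_le_mul_of_nonneg_right hε hI.le)

theorem ca {θ x : ℝ} (h : Num.Par θ x) {δ' ε : ℝ} (hδ' : 0 < δ') (hε : 0 < ε) :
    ∀ᶠ p in Fth θ, ∀ i j a b : ℕ, i + j = p.1 → a + b = p.2 → δ' * p.1 ≤ a → δ' * p.1 ≤ b →
      ∃ i' j' : ℕ, i' + j' = p.1 ∧ δ' / 2 * p.1 ≤ i' ∧ δ' / 2 * p.1 ≤ j' ∧
        |(a : ℝ) / i' - θ| < ε ∧ |(b : ℝ) / j' - θ| < ε ∧
          tt i a * tt j b ≤ (1 + ε) ^ p.1 * (tt i' a * tt j' b) := by
  obtain ⟨hθ, hθ1, -, -⟩ := id h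
  have hy := yy_pos x
  obtain ⟨e1, he1, he1', hee⟩ : ∃ e1 : ℝ, 0 < e1 ∧ e1 < 1 ∧ 1 + e1 ≤ (1 + ε) * (1 - e1) := by
    refine ⟨ε / (2 + ε), by positivity, ?_, le_of_eq ?_⟩
    · rw [div_lt_one (by positivity)]
      linarith
    · field_simp
      ring
  obtain ⟨d1, hd1, n1, h1⟩ := ttp h he1
  obtain ⟨d2, hd2, n2, h2⟩ := ttm h he1 hδ'
  obtain ⟨δ, hδ0, hδ1, hδ2⟩ : ∃ δ : ℝ, 0 < δ ∧ δ ≤ d1 ∧ δ ≤ d2 :=
    ⟨min d1 d2, lt_min hd1 hd2, min_le_left _ _, min_le_right _ _⟩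
  obtain ⟨η, hη0, hη1, hη2, hη3⟩ : ∃ η : ℝ, 0 < η ∧ η ≤ 1 ∧ η ≤ δ ∧ η ≤ ε :=
    ⟨min 1 (min δ ε), lt_min one_pos (lt_min hδ0 hε), min_le_left _ _, (min_le_right _ _).trans (min_le_left _ _),
      (min_le_right _ _).trans (min_le_right _ _)⟩
  obtain ⟨n0, hn01, hn02⟩ : ∃ n0 : ℕ, n1 ≤ n0 ∧ n2 ≤ n0 := ⟨max n1 n2, le_max_left _ _, le_max_right _ _⟩
  have k1 : ∀ n ≥ n0, ∀ g : ℕ, (θ - δ) * n ≤ g → tt n g ≤ (1 + e1) * Num.yy x * tt (n + 1) g := by
    intro n hn g hg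
    refine h1 n (hn01.trans hn) g (le_trans ?_ hg)
    exact mul_le_mul_of_nonneg_right (by linarith) (Nat.cast_nonneg n)
  have k2 : ∀ n ≥ n0, ∀ g : ℕ, δ' * n ≤ g → (g : ℝ) ≤ (θ + δ) * n →
      (1 - e1) * Num.yy x * tt (n + 1) g ≤ tt n g := by
    intro n hn g hg hg'
    refine h2 n (hn02.trans hn) g hg (hg'.trans ?_)
    exact mul_le_mul_of_nonneg_right (by linarith) (Nat.cast_nonneg n)
  have hc1 : 0 < (1 - e1) * Num.yy x := mul_pos (by linarith) hy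
  have hc2 : 0 ≤ (1 + e1) * Num.yy x := mul_nonneg (by linarith) hy.le
  have h12 : (1 + e1) * Num.yy x ≤ (1 + ε) * ((1 - e1) * Num.yy x) := by
    rw [← mul_assoc]
    exact mul_le_mul_of_nonneg_right hee hy.le
  obtain ⟨N, hN⟩ := exists_nat_ge (2 / δ' + 8 / (3 * η * δ') + 2 * n0 / δ' + 1)
  rw [Fth_ev]
  refine ⟨η / 4, by positivity, N, ?_⟩
  intro n hn g hg i j a b hij hab ha hb
  replace hij : i + j = n := hij
  replace hab : a + b = g := hab
  replace ha : δ' * (n : ℝ) ≤ a := ha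
  replace hb : δ' * (n : ℝ) ≤ b := hb
  have hnr : 2 / δ' + 8 / (3 * η * δ') + 2 * n0 / δ' + 1 ≤ (n : ℝ) := hN.trans (by exact_mod_cast hn)
  have q1 : 0 < 2 / δ' := by positivity
  have q2 : 0 < 8 / (3 * η * δ') := by positivity
  have q3 : 0 ≤ 2 * (n0 : ℝ) / δ' := by positivity
  have hn0 : (0 : ℝ) < n := by linarith
  have r1 : 2 ≤ δ' * (n : ℝ) := by
    have : 2 / δ' ≤ (n : ℝ) := by linarith
    rw [div_le_iff₀ hδ'] at this
    linarith
  have r2 : 4 ≤ 3 * η * (δ' / 2 * (n : ℝ)) := by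
    have : 8 / (3 * η * δ') ≤ (n : ℝ) := by linarith
    rw [div_le_iff₀ (by positivity)] at this
    linarith
  have r3 : (n0 : ℝ) ≤ δ' / 2 * n := by
    have : 2 * (n0 : ℝ) / δ' ≤ (n : ℝ) := by linarith
    rw [div_le_iff₀ hδ'] at this
    linarith
  have habr : (a : ℝ) + b = g := by exact_mod_cast hab
  have hgpos : 0 < g := by
    have : (0 : ℝ) < g := by linarith
    exact_mod_cast this
  obtain ⟨I, hI⟩ : ∃ I : ℕ, I = a * n / g := ⟨_, rfl⟩
  have s1 : I * g ≤ a * n := by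
    rw [hI]
    exact Nat.div_mul_le_self _ _
  have s2 : a * n < (I + 1) * g := by
    rw [hI, mul_comm _ g]
    exact Nat.lt_mul_div_succ _ hgpos
  have s1' : (I : ℝ) * g ≤ a * n := by exact_mod_cast s1
  have s2' : (a : ℝ) * n < ((I : ℝ) + 1) * g := by exact_mod_cast s2
  obtain ⟨u1, u2, u3, u4⟩ := ca_rat hη0 hη1 hθ hθ1 hn0 hδ' hg habr ha hb s1' s2' r1 r2
  have hIn : I ≤ n := by
    have : (I : ℝ) ≤ n := by
      have : 0 ≤ δ' / 2 * (n : ℝ) := by positivity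
      linarith
    exact_mod_cast this
  obtain ⟨J, hJ⟩ : ∃ J : ℕ, I + J = n := ⟨n - I, by omega⟩
  have hJr : (n : ℝ) - I = J := by
    have : (I : ℝ) + J = n := by exact_mod_cast hJ
    linarith
  rw [hJr] at u2 u4
  have hI0 : (0 : ℝ) < I := by
    have : 0 < δ' / 2 * (n : ℝ) := by positivity
    linarith
  have hJ0 : (0 : ℝ) < J := by
    have : 0 < δ' / 2 * (n : ℝ) := by positivity
    linarith
  have hIn0 : n0 ≤ I := by
    have : (n0 : ℝ) ≤ I := r3.trans u1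
    exact_mod_cast this
  have hJn0 : n0 ≤ J := by
    have : (n0 : ℝ) ≤ J := r3.trans u2
    exact_mod_cast this
  have hna : n0 ≤ 2 * a := by
    have : (n0 : ℝ) ≤ a := r3.trans (by linarith)
    have h3 : n0 ≤ a := by exact_mod_cast this
    omega
  have hnb : n0 ≤ 2 * b := by
    have : (n0 : ℝ) ≤ b := r3.trans (by linarith)
    have h3 : n0 ≤ b := by exact_mod_cast this
    omega
  have v3 := abs_lt.1 u3
  have v4 := abs_lt.1 u4
  have w1 : η * (I : ℝ) ≤ δ * I := mul_le_mul_of_nonneg_right hη2 hI0.le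
  have w2 : η * (J : ℝ) ≤ δ * J := mul_le_mul_of_nonneg_right hη2 hJ0.le
  refine ⟨I, J, hJ, u1, u2, ca_div hI0 u3 hη3, ca_div hJ0 u4 hη3, ?_⟩
  show tt i a * tt j b ≤ (1 + ε) ^ n * (tt I a * tt J b)
  have hθδ : 0 ≤ θ + δ := by linarith
  have hijr : (i : ℝ) + j = n := by exact_mod_cast hij
  rcases le_total I i with hc | hc
  · obtain ⟨l, hl⟩ : ∃ l : ℕ, i = I + l := ⟨i - I, by omega⟩
    have hjl : J = j + l := by omega
    subst hl
    subst hjl
    push_cast at v4 w2 hijr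
    refine ca_move hθδ hδ'.le hc1 hc2 hε.le h12 k2 k1 hIn0 hnb (by linarith [v3.2]) ?_ (by linarith [v4.1]) (by omega)
    have hj0 : (0 : ℝ) ≤ j := Nat.cast_nonneg j
    have : δ' * ((I : ℝ) + l) ≤ δ' * n := mul_le_mul_of_nonneg_left (by linarith) hδ'.le
    linarith
  · obtain ⟨l, hl⟩ : ∃ l : ℕ, I = i + l := ⟨I - i, by omega⟩
    have hjl : j = J + l := by omega
    subst hl
    subst hjl
    push_cast at v3 w1 hijr
    have h3 := ca_move (n := n) hθδ hδ'.le hc1 hc2 hε.le h12 k2 k1 (i := J) (j := i) (a := b) (b := a) (l := l) hJn0 hna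
      (by linarith [v4.2]) ?_ (by linarith [v3.1]) (by omega)
    · calc tt i a * tt (J + l) b = tt (J + l) b * tt i a := mul_comm _ _
        _ ≤ (1 + ε) ^ n * (tt J b * tt (i + l) a) := h3
        _ = (1 + ε) ^ n * (tt (i + l) a * tt J b) := by ring
    · have hi0 : (0 : ℝ) ≤ i := Nat.cast_nonneg i
      have : δ' * ((J : ℝ) + l) ≤ δ' * n := mul_le_mul_of_nonneg_left (by linarith) hδ'.le
      linarith

end SYS.SP
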