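import Pool.Agent.SYS.SP.Ri

/-!
# SYS-SP-Cb: two big pieces of proportional sizes: removing handles

`n = p.1`, `g = p.2`, `i + j = n`, `a + b = g`, `i, j ≥ δ' n`, `a/i`, `b/j` close to `θ`.
PROOF.  For `δ' > 1/2` there are no such `i, j` (`n ≥ 1`); let `δ' ≤ 1/2`.  Choose `ε ∈ (0, 1/2)` with `(1+ε)/(1-ε) (1-δ')² ≤ 1 - δ'`.  `δ, n0` from `ttk_iter` for `ε`; `η := min (δ/2) ..` such that all three pairs `(i,a)`, `(j,b)`, `(n,g)` are in the window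
(`i, j ≥ δ' n ≥ n0`).  `l := ⌊η i⌋₊`, `l' := ⌊η j⌋₊` (so `l ≤ δ i`, `l' ≤ δ j`, `L = l + l' ≤ δ n`, also `l ≤ a`, `l' ≤ b` as `η ≤ θ/2`).
`ttk_iter` (lower bound) at `(i,a)`: `tt i a ≤ (i²/((1-ε) χ))^l tt i (a-l)`; at `(j,b)`: `tt j b ≤ (j²/((1-ε) χ))^l' tt j (b-l')`.
`gj_an` at `n`, keeping one term of the double sum: `tt i (a-l) * tt j (b-l') ≤ tt (n+1) (g-L)` (`an ≥ 8`).  `tt (n+1) (g-L) ≤ C tt n (g-L)` (`ttm` with `ε = 1/2` at `n` (`δ'` small, `g - L ≤ (θ+δ) n`), or `bd_up`) and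
`ttk_iter` (upper bound) at `(n,g)`: `tt n (g-L) ≤ ((1+ε) χ/n²)^L tt n g`.
Product: `C ((1+ε)/(1-ε))^L (i/n)^(2l) (j/n)^(2l') tt n g`, `i/n, j/n ≤ 1 - δ'`: `≤ C (1-δ')^L tt n g` and `L ≥ η n - 2`: `≤ exp (-c n) tt n g` for large `n` with
`c = η log (1/(1-δ'))/2`.
-/

namespace SYS.SP

open SYS.RB Filter Topology Finset Real

private theorem cb_a {d : ℝ} (hd2 : 0 < 1 - d) :
    (1 - d) ^ 2 * (1 + d / 2) ≤ (1 - d) * (1 - d / 2) := by
  have h1 : (1 - d) * (1 - d / 2) - (1 - d) ^ 2 * (1 + d / 2) = (1 - d) * (d ^ 2 / 2) := by ring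
  have h2 : 0 ≤ (1 - d) * (d ^ 2 / 2) := by positivity
  linarith

private theorem cb_b {n0 n2 n i d : ℝ} (q1 : n0 + n2 + 1 ≤ n * d) (h2 : 0 ≤ n2) (hi : d * n ≤ i) : n0 + 1 ≤ i := by
  linarith [mul_comm d n]

private theorem cb_c {l η θ i : ℝ} (f1 : l ≤ η * i) (h : η ≤ θ) (hi : 0 < i) : l ≤ θ * i :=
  f1.trans (mul_le_mul_of_nonneg_right h hi.le)

private theorem cb_d {X Y S m T : ℝ} (h : X ≤ Y) (h' : Y ≤ S) (h1 : 8 ≤ m) (h2 : 0 ≤ X) (h3 : 0 ≤ T) :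
    X ≤ m * (T + S) := by
  have h5 : 0 ≤ T + S := by linarith
  have h4 : T + S ≤ m * (T + S) := le_mul_of_one_le_left h5 (by linarith)
  linarith

private theorem cb_e {n : ℝ} (hn : 1 ≤ n) : 0 ≤ n * (3 * n - 2) := mul_nonneg (by linarith) (by linarith)

private theorem cb_f {C d η n L : ℝ} (q2 : C + 2 * d ≤ n * (d * η / 2)) (t6 : d * (η * n - 2) ≤ d * L) :
    C + -d * L ≤ -(d * η / 2) * n := by
  linarith

private theorem cb_core {n i j l l' : ℕ} {d ε A B A' B' Q R C χ : ℝ} (hij : i + j = n)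
    (hd : 0 < d) (hd1 : d ≤ 1 / 2) (hε : ε = d / 2) (hχ : 0 < χ) (hC : 0 ≤ C)
    (hi : d * n ≤ i) (hj : d * n ≤ j)
    (hA : 0 ≤ A) (hB : 0 ≤ B) (hA' : 0 ≤ A') (hB' : 0 ≤ B') (hQ : 0 ≤ Q) (hR : 0 ≤ R)
    (h1 : ((1 - ε) * χ) ^ l * A ≤ (i : ℝ) ^ (2 * l) * A')
    (h2 : ((1 - ε) * χ) ^ l' * B ≤ (j : ℝ) ^ (2 * l') * B')
    (h3 : A' * B' ≤ C * Q)
    (h4 : (n : ℝ) ^ (2 * (l + l')) * Q ≤ ((1 + ε) * χ) ^ (l + l') * R) :
    A * B ≤ C * (1 - d) ^ (l + l') * R := by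
  have hn : (i : ℝ) + j = n := by exact_mod_cast hij
  have hε1 : 0 < 1 - ε := by rw [hε]; linarith
  have hε2 : 0 < 1 + ε := by rw [hε]; linarith
  have hd2 : 0 < 1 - d := by linarith
  have hi' : (i : ℝ) ≤ (1 - d) * n := by linarith
  have hj' : (j : ℝ) ≤ (1 - d) * n := by linarith
  have hn0 : (0 : ℝ) ≤ n := Nat.cast_nonneg n
  have hpos : 0 < ((1 - ε) * χ) ^ (l + l') := by positivity
  refine le_of_mul_le_mul_left ?_ hpos
  have a1 : ((1 - ε) * χ) ^ (l + l') * (A * B) ≤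
      ((i : ℝ) ^ (2 * l) * A') * ((j : ℝ) ^ (2 * l') * B') := by
    have := mul_le_mul h1 h2 (by positivity) (by positivity)
    calc ((1 - ε) * χ) ^ (l + l') * (A * B)
        = (((1 - ε) * χ) ^ l * A) * (((1 - ε) * χ) ^ l' * B) := by rw [pow_add]; ring
      _ ≤ _ := this
  have a2 : ((i : ℝ) ^ (2 * l) * A') * ((j : ℝ) ^ (2 * l') * B') ≤
      ((1 - d) * n) ^ (2 * (l + l')) * (A' * B') := by
    have b1 : (i : ℝ) ^ (2 * l) ≤ ((1 - d) * n) ^ (2 * l) :=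
      pow_le_pow_left₀ (Nat.cast_nonneg i) hi' _
    have b2 : (j : ℝ) ^ (2 * l') ≤ ((1 - d) * n) ^ (2 * l') :=
      pow_le_pow_left₀ (Nat.cast_nonneg j) hj' _
    have b3 : (i : ℝ) ^ (2 * l) * (j : ℝ) ^ (2 * l') ≤
        ((1 - d) * n) ^ (2 * l) * ((1 - d) * n) ^ (2 * l') :=
      mul_le_mul b1 b2 (by positivity) (by positivity)
    calc ((i : ℝ) ^ (2 * l) * A') * ((j : ℝ) ^ (2 * l') * B')
        = ((i : ℝ) ^ (2 * l) * (j : ℝ) ^ (2 * l')) * (A' * B') := by ring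
      _ ≤ (((1 - d) * n) ^ (2 * l) * ((1 - d) * n) ^ (2 * l')) * (A' * B') :=
          mul_le_mul_of_nonneg_right b3 (mul_nonneg hA' hB')
      _ = _ := by rw [← pow_add, mul_add]
  have a3 : ((1 - d) * n) ^ (2 * (l + l')) * (A' * B') ≤
      ((1 - d) * n) ^ (2 * (l + l')) * (C * Q) :=
    mul_le_mul_of_nonneg_left h3 (by positivity)
  have a4 : ((1 - d) * n) ^ (2 * (l + l')) * (C * Q) ≤
      (1 - d) ^ (2 * (l + l')) * C * (((1 + ε) * χ) ^ (l + l') * R) := by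
    calc ((1 - d) * n) ^ (2 * (l + l')) * (C * Q)
        = (1 - d) ^ (2 * (l + l')) * C * ((n : ℝ) ^ (2 * (l + l')) * Q) := by
          rw [mul_pow]; ring
      _ ≤ _ := mul_le_mul_of_nonneg_left h4 (by positivity)
  have a5 : ((1 - d) ^ 2 * (1 + ε)) ^ (l + l') ≤ ((1 - d) * (1 - ε)) ^ (l + l') := by
    refine pow_le_pow_left₀ (by positivity) ?_ _
    rw [hε]
    exact cb_a hd2
  have a6 : (1 - d) ^ (2 * (l + l')) * C * (((1 + ε) * χ) ^ (l + l') * R) ≤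
      ((1 - ε) * χ) ^ (l + l') * (C * (1 - d) ^ (l + l') * R) := by
    calc (1 - d) ^ (2 * (l + l')) * C * (((1 + ε) * χ) ^ (l + l') * R)
        = (C * R * χ ^ (l + l')) * (((1 - d) ^ 2 * (1 + ε)) ^ (l + l')) := by
          rw [mul_pow, mul_pow, pow_mul]; ring
      _ ≤ (C * R * χ ^ (l + l')) * (((1 - d) * (1 - ε)) ^ (l + l')) :=
          mul_le_mul_of_nonneg_left a5 (by positivity)
      _ = _ := by rw [mul_pow, mul_pow]; ring
  linarith

private theorem cb_floor {η : ℝ} (hη : 0 ≤ η) {i : ℕ} :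
    ((⌊η * i⌋₊ : ℕ) : ℝ) ≤ η * i ∧ η * i - 1 ≤ ((⌊η * i⌋₊ : ℕ) : ℝ) := by
  have h0 : (0 : ℝ) ≤ η * i := by positivity
  refine ⟨Nat.floor_le h0, ?_⟩
  have := Nat.lt_floor_add_one (η * i)
  linarith

theorem cb {θ x : ℝ} (h : Num.Par θ x) {δ' : ℝ} (hδ' : 0 < δ') :
    ∃ η c : ℝ, 0 < η ∧ 0 < c ∧ ∀ᶠ p in Fth θ, ∀ i j a b : ℕ, i + j = p.1 → a + b = p.2 →
      δ' * p.1 ≤ i → δ' * p.1 ≤ j → |(a : ℝ) / i - θ| < η → |(b : ℝ) / j - θ| < η →
        tt i a * tt j b ≤ exp (-c * p.1) * tt p.1 p.2 := by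
  obtain ⟨hθ, hθ', hx, -⟩ := id h
  set d : ℝ := min δ' (1 / 2) with hd
  have hd0 : 0 < d := lt_min hδ' (by norm_num)
  have hd1 : d ≤ 1 / 2 := min_le_right _ _
  have hdδ : d ≤ δ' := min_le_left _ _
  obtain ⟨δ, hδ, n0, hk⟩ := ttk_iter h (ε := d / 2) (by positivity) (by linarith)
  obtain ⟨C, hC, hup⟩ := bd_up hθ'
  obtain ⟨δ2, hδ2, n2, hup⟩ := (Fth_ev (P := fun p => tt (p.1 + 1) p.2 ≤ C * tt p.1 p.2)).1 hup
  have hχ := chi_pos hx
  set η : ℝ := min (min (δ / 2) (δ2 / 2)) (θ / 2) with hη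
  have hη0 : 0 < η := lt_min (lt_min (by positivity) (by positivity)) (by positivity)
  have hη1 : η ≤ δ / 2 := (min_le_left _ _).trans (min_le_left _ _)
  have hη2 : η ≤ δ2 / 2 := (min_le_left _ _).trans (min_le_right _ _)
  have hη3 : η ≤ θ / 2 := min_le_right _ _
  have hc0 : 0 < d * η / 2 := by positivity
  refine ⟨η, d * η / 2, hη0, hc0, ?_⟩
  rw [Fth_ev]
  obtain ⟨n1, hn1⟩ := exists_nat_ge (((n0 : ℝ) + n2 + 1) / d + (Real.log C + 2 * d) / (d * η / 2))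
  refine ⟨min δ (δ2 / 2), lt_min hδ (by positivity), n1 + n0 + n2 + 1, ?_⟩
  intro n hn g hg i j a b hij hab hi hj ha hb
  simp only at hij hab hi hj ⊢
  have hn' : (0 : ℝ) < n := by
    have : 0 < n := by omega
    exact_mod_cast this
  have hlogC : 0 ≤ Real.log C := Real.log_nonneg hC
  have hnn1 : (n1 : ℝ) ≤ n := by
    have : n1 ≤ n := by omega
    exact_mod_cast this
  have q1 : ((n0 : ℝ) + n2 + 1) / d ≤ n := by
    have : 0 ≤ (Real.log C + 2 * d) / (d * η / 2) := by positivity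
    linarith
  have q2 : (Real.log C + 2 * d) / (d * η / 2) ≤ n := by
    have : 0 ≤ ((n0 : ℝ) + n2 + 1) / d := by positivity
    linarith
  rw [div_le_iff₀ hd0] at q1
  rw [div_le_iff₀ hc0] at q2
  have hi2 : d * n ≤ i := (mul_le_mul_of_nonneg_right hdδ hn'.le).trans hi
  have hj2 : d * n ≤ j := (mul_le_mul_of_nonneg_right hdδ hn'.le).trans hj
  have hi3 : (n0 : ℝ) + 1 ≤ i := cb_b q1 (Nat.cast_nonneg _) hi2
  have hj3 : (n0 : ℝ) + 1 ≤ j := cb_b q1 (Nat.cast_nonneg _) hj2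
  have hi4 : n0 ≤ i := by
    have : (n0 : ℝ) ≤ i := by linarith
    exact_mod_cast this
  have hj4 : n0 ≤ j := by
    have : (n0 : ℝ) ≤ j := by linarith
    exact_mod_cast this
  have hi0 : (0 : ℝ) < i := by
    have : (0 : ℝ) ≤ n0 := Nat.cast_nonneg _
    linarith
  have hj0 : (0 : ℝ) < j := by
    have : (0 : ℝ) ≤ n0 := Nat.cast_nonneg _
    linarith
  obtain ⟨f1, f2⟩ := cb_floor hη0.le (i := i)
  obtain ⟨f3, f4⟩ := cb_floor hη0.le (i := j)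
  set l := ⌊η * (i : ℝ)⌋₊ with hl
  set l' := ⌊η * (j : ℝ)⌋₊ with hl'
  have hnr : (i : ℝ) + j = n := by exact_mod_cast hij
  -- sizes of `a`, `b`
  have hla : l ≤ a := by
    have h1 := (abs_lt.1 ha).1
    have h2 : (θ / 2) * i ≤ a := by
      rw [← le_div_iff₀ hi0]
      linarith
    have h3 : (l : ℝ) ≤ a := (cb_c f1 hη3 hi0).trans h2
    exact_mod_cast h3
  have hlb : l' ≤ b := by
    have h1 := (abs_lt.1 hb).1
    have h2 : (θ / 2) * j ≤ b := by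
      rw [← le_div_iff₀ hj0]
      linarith
    have h3 : (l' : ℝ) ≤ b := (cb_c f3 hη3 hj0).trans h2
    exact_mod_cast h3
  have hL : ((l + l' : ℕ) : ℝ) ≤ η * n := by
    push_cast
    rw [← hnr]
    linarith
  have k1 := (hk i hi4 a (by linarith) l (cb_c f1 (by linarith) hi0)).1
  have k2 := (hk j hj4 b (by linarith) l' (cb_c f3 (by linarith) hj0)).1
  have k3 := (hk n (by omega) g (lt_of_lt_of_le hg (min_le_left _ _)) (l + l') (cb_c hL (by linarith) hn')).2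
  have hgL : l + l' ≤ g := by omega
  have e1 : (a - l) + (b - l') = g - (l + l') := by omega
  have k4 : tt i (a - l) * tt j (b - l') ≤ tt (n + 1) (g - (l + l')) := by
    rw [gj_an gj n (g - (l + l'))]
    have m1 : tt i (a - l) * tt j (b - l') ≤
        ∑ q ∈ antidiagonal (g - (l + l')), tt i q.1 * tt j q.2 := by
      refine single_le_sum (f := fun q : ℕ × ℕ => tt i q.1 * tt j q.2)
        (fun q _ => mul_nonneg (tt_nn _ _) (tt_nn _ _)) (a := (a - l, b - l')) ?_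
      rw [Finset.HasAntidiagonal.mem_antidiagonal]
      exact e1
    have m2 : ∑ q ∈ antidiagonal (g - (l + l')), tt i q.1 * tt j q.2 ≤
        ∑ p ∈ antidiagonal n, ∑ q ∈ antidiagonal (g - (l + l')), tt p.1 q.1 * tt p.2 q.2 := by
      refine single_le_sum (f := fun p : ℕ × ℕ => ∑ q ∈ antidiagonal (g - (l + l')),
        tt p.1 q.1 * tt p.2 q.2) (fun p _ => sum_nonneg fun q _ =>
          mul_nonneg (tt_nn _ _) (tt_nn _ _)) (a := (i, j)) ?_
      rw [Finset.HasAntidiagonal.mem_antidiagonal]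
      exact hij
    have m3 := an_ge n
    have m4 : 0 ≤ tt i (a - l) * tt j (b - l') := mul_nonneg (tt_nn _ _) (tt_nn _ _)
    have m5 : 0 ≤ (n : ℝ) * (3 * n - 2) * (if g - (l + l') = 0 then 0
        else tt (n - 1) (g - (l + l') - 1)) := by
      have s2 : (0 : ℝ) ≤ if g - (l + l') = 0 then 0 else tt (n - 1) (g - (l + l') - 1) := by
        split_ifs
        · exact le_rfl
        · exact tt_nn _ _
      have s1 : (1 : ℝ) ≤ n := by
        have : 1 ≤ n := by omega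
        exact_mod_cast this
      have s3 : (0 : ℝ) ≤ n * (3 * n - 2) := cb_e s1
      exact mul_nonneg s3 s2
    exact cb_d m1 m2 m3 m4 m5
  have k5 : tt (n + 1) (g - (l + l')) ≤ C * tt n (g - (l + l')) := by
    refine hup n (by omega) (g - (l + l')) ?_
    have s1 := abs_lt.1 (lt_of_lt_of_le hg (min_le_right _ _))
    have s2 : ((g - (l + l') : ℕ) : ℝ) / n = (g : ℝ) / n - ((l + l' : ℕ) : ℝ) / n := by
      rw [Nat.cast_sub hgL, sub_div]
    have s3 : ((l + l' : ℕ) : ℝ) / n ≤ η := by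
      rw [div_le_iff₀ hn']
      exact hL
    have s4 : 0 ≤ ((l + l' : ℕ) : ℝ) / n := by positivity
    rw [s2, abs_lt]
    constructor <;> linarith
  have k6 := cb_core (A := tt i a) (B := tt j b) (A' := tt i (a - l)) (B' := tt j (b - l'))
    (Q := tt n (g - (l + l'))) (R := tt n g) (C := C) hij hd0 hd1 rfl hχ (by linarith) hi2 hj2
    (tt_nn _ _) (tt_nn _ _) (tt_nn _ _) (tt_nn _ _) (tt_nn _ _) (tt_nn _ _) k1 k2
    (k4.trans k5) k3
  refine k6.trans (mul_le_mul_of_nonneg_right ?_ (tt_nn _ _))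
  -- `C (1 - d)^L ≤ exp (- c n)`
  have t1 : 1 - d ≤ exp (-d) := by
    have := Real.add_one_le_exp (-d)
    linarith
  have t2 : (1 - d) ^ (l + l') ≤ exp (-d * ((l + l' : ℕ) : ℝ)) := by
    have := pow_le_pow_left₀ (by linarith : (0 : ℝ) ≤ 1 - d) t1 (l + l')
    refine this.trans (le_of_eq ?_)
    rw [← Real.exp_nat_mul]
    congr 1
    ring
  have t3 : C = exp (Real.log C) := (Real.exp_log (by linarith)).symm
  have t4 : C * (1 - d) ^ (l + l') ≤ exp (Real.log C + -d * ((l + l' : ℕ) : ℝ)) := by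
    rw [Real.exp_add, ← t3]
    exact mul_le_mul_of_nonneg_left t2 (by linarith)
  refine t4.trans (Real.exp_le_exp.2 ?_)
  have t5 : η * n - 2 ≤ ((l + l' : ℕ) : ℝ) := by
    push_cast
    rw [← hnr]
    linarith
  have t6 : d * (η * n - 2) ≤ d * ((l + l' : ℕ) : ℝ) := mul_le_mul_of_nonneg_left t5 hd0.le
  exact cb_f q2 t6

end SYS.SP
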