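import Pool.Agent.SYS.SP.Ca
import Pool.Agent.SYS.SP.Cb

/-!
# SYS-SP-Cc: two pieces of large genus: exponentially small

PROOF.  `cb` with `δ'/2` gives `η, c1`; `ca` with `ε := min η (c1/2)` (so `(1+ε)^n ≤ exp (c1 n/2)`, `Real.add_one_le_exp`): `c = c1/2`.
-/

namespace SYS.SP

open SYS.RB Filter Topology Finset Real

theorem cc_big {θ x : ℝ} (h : Num.Par θ x) {δ' : ℝ} (hδ' : 0 < δ') :
    ∃ c : ℝ, 0 < c ∧ ∀ᶠ p in Fth θ, ∀ i j a b : ℕ, i + j = p.1 → a + b = p.2 →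
      δ' * p.1 ≤ a → δ' * p.1 ≤ b → tt i a * tt j b ≤ exp (-c * p.1) * tt p.1 p.2 := by
  obtain ⟨η, c1, hη, hc1, hb⟩ := cb h (half_pos hδ')
  have hε : 0 < min η (c1 / 2) := lt_min hη (half_pos hc1)
  refine ⟨c1 / 2, half_pos hc1, ?_⟩
  filter_upwards [hb, ca h hδ' hε] with p hp1 hp2 i j a b hij hab ha hb'
  obtain ⟨i', j', h1, h2, h3, h4, h5, h6⟩ := hp2 i j a b hij hab ha hb'
  have h7 := hp1 i' j' a b h1 hab h2 h3 (lt_of_lt_of_le h4 (min_le_left _ _))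
    (lt_of_lt_of_le h5 (min_le_left _ _))
  have h8 : (1 + min η (c1 / 2)) ^ p.1 ≤ exp (c1 / 2 * p.1) := by
    have e1 : 1 + min η (c1 / 2) ≤ exp (c1 / 2) := by
      have := Real.add_one_le_exp (min η (c1 / 2))
      have e2 : exp (min η (c1 / 2)) ≤ exp (c1 / 2) := Real.exp_le_exp.2 (min_le_right _ _)
      linarith
    calc (1 + min η (c1 / 2)) ^ p.1 ≤ exp (c1 / 2) ^ p.1 := pow_le_pow_left₀ (by positivity) e1 _
      _ = exp (c1 / 2 * p.1) := by rw [mul_comm, Real.exp_nat_mul]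
  calc tt i a * tt j b ≤ (1 + min η (c1 / 2)) ^ p.1 * (tt i' a * tt j' b) := h6
    _ ≤ (1 + min η (c1 / 2)) ^ p.1 * (exp (-c1 * p.1) * tt p.1 p.2) :=
        mul_le_mul_of_nonneg_left h7 (by positivity)
    _ ≤ exp (c1 / 2 * p.1) * (exp (-c1 * p.1) * tt p.1 p.2) :=
        mul_le_mul_of_nonneg_right h8 (mul_nonneg (exp_pos _).le (tt_nn _ _))
    _ = exp (-(c1 / 2) * p.1) * tt p.1 p.2 := by
        rw [← mul_assoc, ← Real.exp_add]
        congr 2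
        ring

end SYS.SP
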