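import Pool.Agent.SYS.RB.Rpl

/-!
# Project SYS (MP_650813_pr), block SP: two non-planar pieces cost `n^(-2)` (hole-free core), definitions

Index convention of `RB/Defs`: `tt (n+1) g = T(n,g) = (3n+2) 6n nu n g`.  Definitions only.  DO NOT CHANGE.
-/

namespace SYS.SP

open SYS.RB Filter Topology Finset Real

/-- limit of `n² tt n (g-1)/tt n g` -/
noncomputable def chi (x : ℝ) : ℝ := 4 / 9 * sinh x ^ 2 * (cosh x ^ 2 + 2) ^ 2 / cosh x ^ 2

/-- `∑ exp (c min(i,j)) tt i h tt j k` over `i + j = n`, `h + k = g`, `h, k ≥ m`. -/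
noncomputable def SB (c : ℝ) (m n g : ℕ) : ℝ :=
  ∑ P ∈ antidiagonal n, ∑ q ∈ antidiagonal g, if m ≤ q.1 ∧ m ≤ q.2 then
    exp (c * min (P.1 : ℝ) P.2) * (tt P.1 q.1 * tt P.2 q.2) else 0

end SYS.SP
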