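import Pool.Agent.SYS.RB.Cr

/-!
# SYS-SP-GOne: a crude upper bound for all genera

PROOF.  `s = 1 + 1/B`.  Strong induction on `i`.  `i = 0`: `tt 0 h = 0` for `h ≥ 1`; `h = 0` trivial.  `i = n + 1`: `gj_an`:
`tt (n+1) g = an n * (n (3n-2) * [g ≥ 1] tt (n-1) (g-1) + ∑_{i+j=n} ∑_{h+k=g} tt i h tt j k)`.
* Second part: by induction `tt i h ≤ (B i²)^h s^i tt i 0`; `∑_{h+k=g} (B i²)^h (B j²)^k ≤ (B i² + B j²)^g ≤ (B n²)^g` (for `a, b ≥ 0`:
  `∑_{h+k=g} a^h b^k ≤ (a+b)^g`: binomial theorem `add_pow` / `Commute.add_pow`, coefficients `≥ 1`), so it is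
  `≤ (B n²)^g s^n * an n * ∑_{i+j=n} tt i 0 tt j 0 = (B n²)^g s^n tt (n+1) 0` (`gj_an` at `g = 0`).
* First part (`n ≥ 1`, `g ≥ 1`): `n (3n-2) ≤ 3 n²`, `≤ an n * 3 n² (B (n-1)²)^(g-1) s^(n-1) tt (n-1) 0 ≤ (3/B) (B (n+1)²)^g s^(n-1) * (an n * tt (n-1) 0)` and
  `an n * tt (n-1) 0 ≤ tt (n+1) 0/4` (`n = 1`: `10 * (1/2) = 20/4`, `tt 2 0 = 20` from `gj_an`; `n ≥ 2`: `tt_le10`, `tt_le`).
* Total `≤ (B (n+1)²)^g tt (n+1) 0 * s^(n-1) * (s + 3/(4B)) ≤ (B (n+1)²)^g tt (n+1) 0 * s^(n+1)` as `s² - s = s/B ≥ 3/(4B)`.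
-/

namespace SYS.SP

open SYS.RB Filter Topology Finset Real

private theorem gone_binom {a b : ℝ} (ha : 0 ≤ a) (hb : 0 ≤ b) (g : ℕ) :
    ∑ q ∈ antidiagonal g, a ^ q.1 * b ^ q.2 ≤ (a + b) ^ g := by
  rw [Commute.add_pow' (Commute.all a b) g]
  refine Finset.sum_le_sum fun q hq => ?_
  have h1 : 1 ≤ g.choose q.1 := by
    have h2 := Finset.HasAntidiagonal.mem_antidiagonal.1 hq
    exact Nat.choose_pos (by omega)
  have h3 : (1 : ℝ) ≤ (g.choose q.1 : ℝ) := by exact_mod_cast h1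
  have h4 : 0 ≤ a ^ q.1 * b ^ q.2 := by positivity
  rw [nsmul_eq_mul]
  nlinarith

private theorem gone_zero (hG : GJ) (n : ℕ) :
    an n * ∑ p ∈ antidiagonal n, tt p.1 0 * tt p.2 0 = tt (n + 1) 0 := by
  rw [gj_an hG n 0, if_pos rfl, mul_zero, zero_add]
  congr 1
  refine Finset.sum_congr rfl fun p _ => ?_
  rw [Finset.Nat.antidiagonal_zero, Finset.sum_singleton]

private theorem gone_quarter (hG : GJ) (m : ℕ) : an (m + 1) * tt m 0 ≤ tt (m + 2) 0 / 4 := by
  rcases Nat.eq_zero_or_pos m with rfl | hm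
  · have h1 := tt_le10 hG (le_refl 1) 0
    have h2 : tt 1 0 = 2 := by simp [tt]
    have h3 : an (0 + 1) = 10 := by
      unfold an
      norm_num
    rw [h3, tt_zero_zero]
    rw [h2] at h1
    have h4 : tt (0 + 2) 0 = tt (1 + 1) 0 := rfl
    rw [h4]
    linarith
  · have h1 := tt_le hG (n := m + 1) (by omega) 0
    have h2 := tt_le10 hG hm 0
    have h3 : 0 ≤ an (m + 1) := by
      have := an_ge (m + 1)
      linarith
    have h4 := mul_le_mul_of_nonneg_left h2 h3
    have h5 := tt_nn (m + 1 + 1) 0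
    have h6 : tt (m + 2) 0 = tt (m + 1 + 1) 0 := rfl
    rw [h6]
    linarith

theorem g_one (hG : GJ) {B : ℝ} (hB : 1 ≤ B) (i h : ℕ) :
    tt i h ≤ (B * (i : ℝ) ^ 2) ^ h * (1 + 1 / B) ^ i * tt i 0 := by
  have hB0 : 0 < B := lt_of_lt_of_le one_pos hB
  have hs1 : 1 ≤ 1 + 1 / B := by
    have : 0 < 1 / B := by positivity
    linarith
  set s : ℝ := 1 + 1 / B with hs
  have hs0 : 0 < s := lt_of_lt_of_le one_pos hs1
  induction i using Nat.strong_induction_on generalizing h with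
  | _ i ih =>
    rcases i with _ | n
    · rcases Nat.eq_zero_or_pos h with rfl | hh
      · simp
      · have h1 : tt 0 h = 0 := by
          rw [tt, if_neg hh.ne']
        rw [h1]
        have := tt_nn 0 0
        positivity
    · have han : 0 ≤ an n := by
        have := an_ge n
        linarith
      have hT := tt_nn (n + 1) 0
      -- second part
      have hsec : ∑ p ∈ antidiagonal n, ∑ q ∈ antidiagonal h, tt p.1 q.1 * tt p.2 q.2 ≤
          (B * (n : ℝ) ^ 2) ^ h * s ^ n * ∑ p ∈ antidiagonal n, tt p.1 0 * tt p.2 0 := by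
        rw [Finset.mul_sum]
        refine Finset.sum_le_sum fun p hp => ?_
        have hpn := Finset.HasAntidiagonal.mem_antidiagonal.1 hp
        have hp1 : p.1 < n + 1 := by omega
        have hp2 : p.2 < n + 1 := by omega
        have h1 := tt_nn p.1 0
        have h2 := tt_nn p.2 0
        have hX1 : 0 ≤ B * (p.1 : ℝ) ^ 2 := by positivity
        have hX2 : 0 ≤ B * (p.2 : ℝ) ^ 2 := by positivity
        calc ∑ q ∈ antidiagonal h, tt p.1 q.1 * tt p.2 q.2
            ≤ ∑ q ∈ antidiagonal h, (s ^ n * (tt p.1 0 * tt p.2 0)) * ((B * (p.1 : ℝ) ^ 2) ^ q.1 * (B * (p.2 : ℝ) ^ 2) ^ q.2) := by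
              refine Finset.sum_le_sum fun q _ => ?_
              have h3 := mul_le_mul (ih p.1 hp1 q.1) (ih p.2 hp2 q.2) (tt_nn _ _) (by positivity)
              refine h3.trans (le_of_eq ?_)
              rw [← hpn, pow_add]
              ring
          _ = (s ^ n * (tt p.1 0 * tt p.2 0)) * ∑ q ∈ antidiagonal h, (B * (p.1 : ℝ) ^ 2) ^ q.1 * (B * (p.2 : ℝ) ^ 2) ^ q.2 := by
              rw [Finset.mul_sum]
          _ ≤ (s ^ n * (tt p.1 0 * tt p.2 0)) * (B * (n : ℝ) ^ 2) ^ h := by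
              refine mul_le_mul_of_nonneg_left ?_ (by positivity)
              refine (gone_binom hX1 hX2 h).trans ?_
              refine pow_le_pow_left₀ (by positivity) ?_ h
              have h4 : (n : ℝ) = p.1 + p.2 := by
                rw [← hpn]
                push_cast
                ring
              rw [h4]
              have h5 : 0 ≤ B * ((p.1 : ℝ) * p.2) := by positivity
              nlinarith
          _ = (B * (n : ℝ) ^ 2) ^ h * s ^ n * (tt p.1 0 * tt p.2 0) := by ring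
      have hXn : (B * (n : ℝ) ^ 2) ^ h ≤ (B * ((n + 1 : ℕ) : ℝ) ^ 2) ^ h := by
        refine pow_le_pow_left₀ (by positivity) ?_ h
        refine mul_le_mul_of_nonneg_left ?_ hB0.le
        refine pow_le_pow_left₀ (by positivity) ?_ 2
        push_cast
        linarith
      have hsec2 : an n * ∑ p ∈ antidiagonal n, ∑ q ∈ antidiagonal h, tt p.1 q.1 * tt p.2 q.2 ≤
          (B * ((n + 1 : ℕ) : ℝ) ^ 2) ^ h * s ^ n * tt (n + 1) 0 := by
        refine (mul_le_mul_of_nonneg_left hsec han).trans ?_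
        have h1 : an n * ((B * (n : ℝ) ^ 2) ^ h * s ^ n * ∑ p ∈ antidiagonal n, tt p.1 0 * tt p.2 0) =
            (B * (n : ℝ) ^ 2) ^ h * s ^ n * tt (n + 1) 0 := by
          rw [← gone_zero hG n]
          ring
        rw [h1]
        refine mul_le_mul_of_nonneg_right ?_ hT
        exact mul_le_mul_of_nonneg_right hXn (by positivity)
      have hss : s ^ n ≤ s ^ (n + 1) := pow_le_pow_right₀ hs1 (Nat.le_succ n)
      have hX0 : 0 ≤ (B * ((n + 1 : ℕ) : ℝ) ^ 2) ^ h := by positivity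
      have hfin0 : (B * ((n + 1 : ℕ) : ℝ) ^ 2) ^ h * s ^ n * tt (n + 1) 0 ≤
          (B * ((n + 1 : ℕ) : ℝ) ^ 2) ^ h * s ^ (n + 1) * tt (n + 1) 0 :=
        mul_le_mul_of_nonneg_right (mul_le_mul_of_nonneg_left hss hX0) hT
      rw [gj_an hG n h, mul_add]
      rcases Nat.eq_zero_or_pos h with rfl | hh
      · rw [if_pos rfl, mul_zero, mul_zero, zero_add]
        exact hsec2.trans hfin0
      rw [if_neg hh.ne']
      rcases n with _ | m
      · have h1 : an 0 * (((0 : ℕ) : ℝ) * (3 * ((0 : ℕ) : ℝ) - 2) * tt (0 - 1) (h - 1)) = 0 := by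
          rw [Nat.cast_zero, zero_mul, zero_mul, mul_zero]
        rw [h1, zero_add]
        exact hsec2.trans hfin0
      obtain ⟨k, rfl⟩ := Nat.exists_eq_add_of_le' hh
      have e1 : m + 1 - 1 = m := rfl
      have e2 : k + 1 - 1 = k := rfl
      rw [e1, e2]
      have ih1 := ih m (by omega) k
      have hq := gone_quarter hG m
      have hm0 := tt_nn m 0
      set X : ℝ := B * ((m + 1 + 1 : ℕ) : ℝ) ^ 2 with hX
      have hXp : 0 ≤ X := by positivity
      have hXm : (B * (m : ℝ) ^ 2) ^ k ≤ X ^ k := by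
        refine pow_le_pow_left₀ (by positivity) ?_ k
        rw [hX]
        refine mul_le_mul_of_nonneg_left ?_ hB0.le
        refine pow_le_pow_left₀ (by positivity) ?_ 2
        push_cast
        linarith
      have hcoef : (((m + 1 : ℕ) : ℝ) * (3 * ((m + 1 : ℕ) : ℝ) - 2)) ≤ 3 / B * X := by
        have h1 : 3 / B * X = 3 * ((m + 1 + 1 : ℕ) : ℝ) ^ 2 := by
          rw [hX]
          field_simp
        rw [h1]
        push_cast
        nlinarith [(Nat.cast_nonneg m : (0 : ℝ) ≤ m)]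
      have hcoef0 : 0 ≤ (((m + 1 : ℕ) : ℝ) * (3 * ((m + 1 : ℕ) : ℝ) - 2)) := by
        have h1 : (1 : ℝ) ≤ ((m + 1 : ℕ) : ℝ) := by
          push_cast
          linarith [(Nat.cast_nonneg m : (0 : ℝ) ≤ m)]
        refine mul_nonneg (by linarith) (by linarith)
      have hfirst : an (m + 1) * (((m + 1 : ℕ) : ℝ) * (3 * ((m + 1 : ℕ) : ℝ) - 2) * tt m k) ≤
          3 / B * X ^ (k + 1) * s ^ m * (tt (m + 2) 0 / 4) := by
        calc an (m + 1) * (((m + 1 : ℕ) : ℝ) * (3 * ((m + 1 : ℕ) : ℝ) - 2) * tt m k)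
            ≤ an (m + 1) * ((3 / B * X) * (X ^ k * s ^ m * tt m 0)) := by
              refine mul_le_mul_of_nonneg_left ?_ han
              refine mul_le_mul hcoef (ih1.trans ?_) (tt_nn _ _) (by positivity)
              refine mul_le_mul_of_nonneg_right ?_ hm0
              exact mul_le_mul_of_nonneg_right hXm (by positivity)
          _ = (3 / B * X ^ (k + 1) * s ^ m) * (an (m + 1) * tt m 0) := by ring
          _ ≤ (3 / B * X ^ (k + 1) * s ^ m) * (tt (m + 2) 0 / 4) :=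
              mul_le_mul_of_nonneg_left hq (by positivity)
      have hsq : s + 3 / (4 * B) ≤ s * s := by
        have h1 : s * s = s + 1 / B * s := by
          nth_rewrite 1 [hs]
          ring
        have h2 : 1 / B * 1 ≤ 1 / B * s := mul_le_mul_of_nonneg_left hs1 (by positivity)
        have h3 : 3 / (4 * B) = 3 / 4 * (1 / B) := by
          field_simp
        have h4 : 0 < 1 / B := by positivity
        rw [h1, h3]
        linarith
      have hgo : (B * ((m + 1 + 1 : ℕ) : ℝ) ^ 2) ^ (k + 1) = X ^ (k + 1) := rfl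
      have hT2 : tt (m + 1 + 1) 0 = tt (m + 2) 0 := rfl
      rw [hT2] at hsec2 hT ⊢
      have hpos : 0 ≤ X ^ (k + 1) * s ^ m * tt (m + 2) 0 := by positivity
      have hfinal := mul_le_mul_of_nonneg_left hsq hpos
      calc an (m + 1) * (((m + 1 : ℕ) : ℝ) * (3 * ((m + 1 : ℕ) : ℝ) - 2) * tt m k) +
            an (m + 1) * ∑ p ∈ antidiagonal (m + 1), ∑ q ∈ antidiagonal (k + 1), tt p.1 q.1 * tt p.2 q.2
          ≤ 3 / B * X ^ (k + 1) * s ^ m * (tt (m + 2) 0 / 4) + X ^ (k + 1) * s ^ (m + 1) * tt (m + 2) 0 :=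
            add_le_add hfirst hsec2
        _ = X ^ (k + 1) * s ^ m * tt (m + 2) 0 * (s + 3 / (4 * B)) := by
            rw [pow_succ s m]
            field_simp
            ring
        _ ≤ X ^ (k + 1) * s ^ m * tt (m + 2) 0 * (s * s) := hfinal
        _ = X ^ (k + 1) * s ^ (m + 1 + 1) * tt (m + 2) 0 := by
            rw [pow_succ s (m + 1), pow_succ s m]
            ring

end SYS.SP
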