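import Pool.Agent.SYS.SP.Dec

/-!
# SYS-SP-Rt: uniform ratio bounds for `tt`

`ttp` follows from `rat_plus`, `ttm` from `compact_ev` and `rat_tt'` (the limit is monotone in `θ`), `ttk` from `rat_tt'` and `Fth_ev`.
-/

namespace SYS.SP

open SYS.RB Filter Topology Finset Real

theorem ttp {θ x : ℝ} (h : Num.Par θ x) {ε : ℝ} (hε : 0 < ε) :
    ∃ δ : ℝ, 0 < δ ∧ ∃ n0 : ℕ, ∀ n ≥ n0, ∀ g : ℕ, (θ - δ) * n ≤ g →
      tt n g ≤ (1 + ε) * Num.yy x * tt (n + 1) g := by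
  have hy := yy_pos x
  obtain ⟨δ, hδ, n0, h1⟩ := rat_plus h (mul_pos hε hy)
  refine ⟨δ, hδ, max n0 2, fun n hn g hg => ?_⟩
  have hn0 : n0 ≤ n := le_trans (le_max_left _ _) hn
  have hn2 : 2 ≤ n := le_trans (le_max_right _ _) hn
  have h2 := h1 n hn0 g hg
  obtain ⟨m, rfl⟩ : ∃ m, n = m + 1 := ⟨n - 1, by omega⟩
  have hm : 1 ≤ m := by omega
  have e1 : m + 1 - 1 = m := by omega
  rw [e1] at h2
  rw [tt_succ hm g, tt_succ (show 1 ≤ m + 1 by omega) g]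
  have h3 := nu_nn m g
  have hm0 : (0 : ℝ) ≤ (m : ℝ) := Nat.cast_nonneg m
  have h4 : (3 * (m : ℝ) + 2) * (6 * m) ≤ (3 * ((m + 1 : ℕ) : ℝ) + 2) * (6 * ((m + 1 : ℕ) : ℝ)) := by
    push_cast
    nlinarith
  have h5 : (0 : ℝ) ≤ (3 * ((m + 1 : ℕ) : ℝ) + 2) * (6 * ((m + 1 : ℕ) : ℝ)) := by positivity
  calc (3 * (m : ℝ) + 2) * (6 * m) * SST.nu m g
      ≤ (3 * ((m + 1 : ℕ) : ℝ) + 2) * (6 * ((m + 1 : ℕ) : ℝ)) * SST.nu m g :=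
        mul_le_mul_of_nonneg_right h4 h3
    _ ≤ (3 * ((m + 1 : ℕ) : ℝ) + 2) * (6 * ((m + 1 : ℕ) : ℝ)) *
        ((Num.yy x + ε * Num.yy x) * SST.nu (m + 1) g) := mul_le_mul_of_nonneg_left h2 h5
    _ = _ := by ring

private theorem Rt_V {θ x : ℝ} (h : Num.Par θ x) :
    3 * x * cosh x / (sinh x * (cosh x ^ 2 + 2)) = 1 - 2 * θ := by
  obtain ⟨_, _, h3, h4⟩ := h
  have h5 := Real.sinh_pos_iff.mpr h3
  have h6 : 0 < sinh x * (cosh x ^ 2 + 2) := by positivity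
  rw [h4, mul_div_cancel_right₀ _ h6.ne']

private theorem Rt_delta {θ x : ℝ} (h : Num.Par θ x) {ε : ℝ} (hε : 0 < ε) :
    ∃ δ : ℝ, 0 < δ ∧ ∀ θ' x' : ℝ, Num.Par θ' x' → θ' ≤ θ + δ → Num.yy x - ε ≤ Num.yy x' := by
  have hx := h.2.2.1
  have h1 : ∀ᶠ z in 𝓝 x, Num.yy x - ε < Num.yy z :=
    (yy_cont.tendsto x).eventually_const_lt (by linarith)
  obtain ⟨d, hd, hd2⟩ := Metric.eventually_nhds_iff.1 h1
  obtain ⟨x1, hx1, hx2⟩ : ∃ x1 : ℝ, x < x1 ∧ dist x1 x < d := by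
    refine ⟨x + d / 2, by linarith, ?_⟩
    rw [Real.dist_eq, abs_lt]
    constructor <;> linarith
  have h2 := hd2 hx2
  have hx1p : 0 < x1 := hx.trans hx1
  have h3 := V_anti (Set.mem_Ioi.mpr hx) (Set.mem_Ioi.mpr hx1p) hx1
  have h4 := Rt_V h
  simp only at h3
  rw [h4] at h3
  refine ⟨((1 - 2 * θ) - 3 * x1 * cosh x1 / (sinh x1 * (cosh x1 ^ 2 + 2))) / 2, by linarith, ?_⟩
  intro θ' x' h' hθ
  have h5 : x' ≤ x1 := by
    by_contra hc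
    push Not at hc
    have h6 := V_anti (Set.mem_Ioi.mpr hx1p) (Set.mem_Ioi.mpr h'.2.2.1) hc
    simp only at h6
    rw [Rt_V h'] at h6
    linarith
  have h7 := yy_anti h'.2.2.1.le h5
  linarith

theorem ttm {θ x : ℝ} (h : Num.Par θ x) {ε δ' : ℝ} (hε : 0 < ε) (hδ' : 0 < δ') :
    ∃ δ : ℝ, 0 < δ ∧ ∃ n0 : ℕ, ∀ n ≥ n0, ∀ g : ℕ, δ' * n ≤ g → (g : ℝ) ≤ (θ + δ) * n →
      (1 - ε) * Num.yy x * tt (n + 1) g ≤ tt n g := by
  have hy := yy_pos x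
  obtain ⟨δ1, hδ1, h1⟩ := Rt_delta h (mul_pos (half_pos hε) hy)
  obtain ⟨hθ, hθ', hx, -⟩ := h
  have hδ : 0 < min δ1 ((1 / 2 - θ) / 2) := lt_min hδ1 (by linarith)
  obtain ⟨n0, h2⟩ := compact_ev (a := δ' / 2) (b := θ + min δ1 ((1 / 2 - θ) / 2))
    (P := fun p => (1 - ε) * Num.yy x * tt p.1 p.2 ≤ tt (p.1 - 1) p.2) (by
      intro t ha hb
      have ht : 0 < t := by linarith
      have ht' : t < 1 / 2 := by
        have := min_le_right δ1 ((1 / 2 - θ) / 2)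
        linarith
      obtain ⟨x', hx'⟩ := exists_par ht ht'
      have h3 := h1 t x' hx' (by
        have := min_le_left δ1 ((1 / 2 - θ) / 2)
        linarith)
      have h4 : (1 - ε) * Num.yy x < Num.yy x' := by nlinarith
      filter_upwards [(rat_tt' hx').1.eventually_const_lt h4, ev_pos ht'] with p hp hp2
      have h5 : (1 - ε) * Num.yy x < tt (p.1 - 1) p.2 / tt p.1 p.2 := hp
      rw [lt_div_iff₀ hp2] at h5
      exact h5.le)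
  refine ⟨min δ1 ((1 / 2 - θ) / 2), hδ, max n0 1, fun n hn g hg1 hg2 => ?_⟩
  have hn0 : n0 ≤ n := le_trans (le_max_left _ _) hn
  have hn1 : 1 ≤ n := le_trans (le_max_right _ _) hn
  have hn1' : (1 : ℝ) ≤ n := by exact_mod_cast hn1
  have h3 := h2 (n + 1) (by omega) g (by push_cast; nlinarith) (by push_cast; nlinarith)
  simpa using h3

theorem ttk {θ x : ℝ} (h : Num.Par θ x) {ε : ℝ} (hε : 0 < ε) :
    ∃ δ : ℝ, 0 < δ ∧ ∃ n0 : ℕ, ∀ n ≥ n0, ∀ g : ℕ, |(g : ℝ) / n - θ| < δ →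
      0 < tt n g ∧ (1 - ε) * chi x * tt n g ≤ (n : ℝ) ^ 2 * tt n (g - 1) ∧
        (n : ℝ) ^ 2 * tt n (g - 1) ≤ (1 + ε) * chi x * tt n g := by
  have hc := chi_pos h.2.2.1
  refine (Fth_ev (P := fun p : ℕ × ℕ => 0 < tt p.1 p.2 ∧
    (1 - ε) * chi x * tt p.1 p.2 ≤ (p.1 : ℝ) ^ 2 * tt p.1 (p.2 - 1) ∧
      (p.1 : ℝ) ^ 2 * tt p.1 (p.2 - 1) ≤ (1 + ε) * chi x * tt p.1 p.2)).1 ?_
  have h1 : (1 - ε) * chi x < chi x := by nlinarith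
  have h2 : chi x < (1 + ε) * chi x := by nlinarith
  filter_upwards [(rat_tt' h).2.eventually_const_lt h1, (rat_tt' h).2.eventually_lt_const h2,
    ev_pos h.2.1] with p hp1 hp2 hp3
  have h3 : (1 - ε) * chi x < (p.1 : ℝ) ^ 2 * tt p.1 (p.2 - 1) / tt p.1 p.2 := hp1
  have h4 : (p.1 : ℝ) ^ 2 * tt p.1 (p.2 - 1) / tt p.1 p.2 < (1 + ε) * chi x := hp2
  rw [lt_div_iff₀ hp3] at h3
  rw [div_lt_iff₀ hp3] at h4
  exact ⟨hp3, h3.le, h4.le⟩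

end SYS.SP
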